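import Mathlib

/-!
Chains of sets of nodes of the complete ternary tree cut many edges.
-/

set_option autoImplicit false

namespace Pool.Agent.H176R4.TR

open Finset

/-- A node is a word over `Fin 3`; its children are the words `j :: v`, its parent is its tail.
`nodes h w` are the nodes of the complete ternary tree of height `h` with root `w`. -/
def nodes : ℕ → List (Fin 3) → Finset (List (Fin 3))
  | 0, w => {w}
  | h + 1, w => insert w (Finset.univ.biUnion fun j => nodes h (j :: w))

lemma mem_nodes (h : ℕ) : ∀ (w v : List (Fin 3)),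
    v ∈ nodes h w ↔ w <:+ v ∧ v.length ≤ h + w.length := by
  induction h with
  | zero =>
    intro w v
    rw [nodes, Finset.mem_singleton]
    constructor
    · rintro rfl
      exact ⟨List.suffix_refl _, by omega⟩
    · rintro ⟨h1, h2⟩
      exact (h1.eq_of_length_le (by omega)).symm
  | succ h ih =>
    intro w v
    rw [nodes, Finset.mem_insert, Finset.mem_biUnion]
    constructor
    · rintro (rfl | ⟨j, _, hj⟩)
      · exact ⟨List.suffix_refl _, by omega⟩
      · rw [ih, List.length_cons] at hj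
        exact ⟨(List.suffix_cons _ _).trans hj.1, by omega⟩
    · rintro ⟨⟨t, rfl⟩, h2⟩
      rcases List.eq_nil_or_concat t with rfl | ⟨t', j, rfl⟩
      · left
        rfl
      · right
        refine ⟨j, Finset.mem_univ _, ?_⟩
        rw [ih]
        refine ⟨⟨t', by simp⟩, ?_⟩
        simp only [List.concat_eq_append, List.append_assoc, List.length_append, List.length_cons,
          List.length_nil] at h2 ⊢
        omega

lemma root_mem (h : ℕ) (w : List (Fin 3)) : w ∈ nodes h w := by
  rw [mem_nodes]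
  exact ⟨List.suffix_refl _, by omega⟩

lemma child_sub (h : ℕ) (w : List (Fin 3)) (j : Fin 3) : nodes h (j :: w) ⊆ nodes (h + 1) w := by
  intro v hv
  rw [nodes, Finset.mem_insert, Finset.mem_biUnion]
  exact Or.inr ⟨j, Finset.mem_univ _, hv⟩

lemma root_notMem (h : ℕ) (w : List (Fin 3)) (j : Fin 3) : w ∉ nodes h (j :: w) := by
  rw [mem_nodes]
  rintro ⟨h1, _⟩
  have := h1.length_le
  rw [List.length_cons] at this
  omega

lemma child_disjoint (h : ℕ) (w : List (Fin 3)) {j k : Fin 3} (hjk : j ≠ k) {v : List (Fin 3)}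
    (h1 : v ∈ nodes h (j :: w)) : v ∉ nodes h (k :: w) := by
  intro h2
  rw [mem_nodes] at h1 h2
  have h3 := List.suffix_of_suffix_length_le h1.1 h2.1 (by simp)
  have h4 := h3.eq_of_length (by simp)
  exact hjk (List.cons.inj h4).1

lemma tail_mem (h : ℕ) (w v : List (Fin 3)) (hv : v ∈ nodes h w) (hne : v ≠ w) :
    v.tail ∈ nodes h w := by
  rw [mem_nodes] at hv ⊢
  obtain ⟨⟨t, rfl⟩, h2⟩ := hv
  rcases t with _ | ⟨a, t⟩
  · exact absurd rfl hne
  · refine ⟨⟨t, by simp⟩, ?_⟩
    rw [List.length_tail]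
    omega

/-- The nodes different from the root of the tree which are cut from their parent by `U`. -/
def bd (h : ℕ) (w : List (Fin 3)) (U : Finset (List (Fin 3))) : Finset (List (Fin 3)) :=
  (nodes h w).filter fun v => v ≠ w ∧ ¬(v ∈ U ↔ v.tail ∈ U)

lemma mem_bd (h : ℕ) (w : List (Fin 3)) (U : Finset (List (Fin 3))) (v : List (Fin 3)) :
    v ∈ bd h w U ↔ v ∈ nodes h w ∧ v ≠ w ∧ ¬(v ∈ U ↔ v.tail ∈ U) := by
  rw [bd, Finset.mem_filter]

lemma bd_child (h : ℕ) (w : List (Fin 3)) (U : Finset (List (Fin 3))) (j : Fin 3) :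
    bd h (j :: w) U ⊆ bd (h + 1) w U := by
  intro v hv
  rw [mem_bd] at hv ⊢
  refine ⟨child_sub h w j hv.1, ?_, hv.2.2⟩
  rintro rfl
  exact root_notMem h _ j hv.1

/-- connectivity -/
lemma conn (h : ℕ) : ∀ (w : List (Fin 3)) (U : Finset (List (Fin 3))), bd h w U = ∅ →
    ∀ v ∈ nodes h w, (v ∈ U ↔ w ∈ U) := by
  induction h with
  | zero =>
    intro w U _ v hv
    rw [nodes, Finset.mem_singleton] at hv
    rw [hv]
  | succ h ih =>
    intro w U hU v hv
    rw [nodes, Finset.mem_insert, Finset.mem_biUnion] at hv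
    rcases hv with rfl | ⟨j, _, hj⟩
    · rfl
    · have h1 : bd h (j :: w) U = ∅ := by
        apply Finset.subset_empty.mp
        rw [← hU]
        exact bd_child h w U j
      rw [ih _ U h1 v hj]
      by_contra hcon
      have : (j :: w) ∈ bd (h + 1) w U := by
        rw [mem_bd]
        refine ⟨child_sub h w j (root_mem _ _), ?_, hcon⟩
        intro h2
        have := congrArg List.length h2
        simp at this
      rw [hU] at this
      exact Finset.notMem_empty _ this

lemma conn' (h : ℕ) (w : List (Fin 3)) (U : Finset (List (Fin 3))) (j : Fin 3) (v : List (Fin 3))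
    (hv : v ∈ nodes h (j :: w)) (hne : ¬(v ∈ U ↔ w ∈ U)) :
    ∃ u ∈ nodes h (j :: w), u ∈ bd (h + 1) w U := by
  by_cases h1 : bd h (j :: w) U = ∅
  · refine ⟨j :: w, root_mem _ _, ?_⟩
    rw [mem_bd]
    refine ⟨child_sub h w j (root_mem _ _), ?_, ?_⟩
    · intro h2
      have := congrArg List.length h2
      simp at this
    · rw [List.tail_cons, ← conn h _ U h1 v hv]
      exact hne
  · obtain ⟨u, hu⟩ := Finset.nonempty_iff_ne_empty.mpr h1
    exact ⟨u, ((mem_bd _ _ _ _).mp hu).1, bd_child h w U j hu⟩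

/-- a descending chain in which at most `d` elements are removed in every step -/
structure Chain (d : ℕ) (S : ℕ → Finset (List (Fin 3))) : Prop where
  sub : ∀ i, S (i + 1) ⊆ S i
  one : ∀ i, (S i \ S (i + 1)).card ≤ d
  zero : ∃ i, S i = ∅

lemma Chain.anti {d : ℕ} {S : ℕ → Finset (List (Fin 3))} (h : Chain d S) {i j : ℕ}
    (hij : i ≤ j) : S j ⊆ S i := by
  induction j, hij using Nat.le_induction with
  | base => exact Finset.Subset.refl _
  | succ j _ ih => exact (h.sub j).trans ih

lemma le_card_nodes (h : ℕ) : ∀ w : List (Fin 3), 3 ^ (h + 1) ≤ 2 * (nodes h w).card + 1 := by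
  classical
  induction h with
  | zero => intro w; simp [nodes]
  | succ h ih =>
    intro w
    rw [nodes, Finset.card_insert_of_notMem, Finset.card_biUnion, Fin.sum_univ_three]
    · have h3 := ih (0 :: w)
      have h4 := ih (1 :: w)
      have h5 := ih (2 :: w)
      rw [pow_succ]
      omega
    · intro i _ j _ hij
      rw [Function.onFun, Finset.disjoint_left]
      intro v hv
      exact child_disjoint h w hij hv
    · rw [Finset.mem_biUnion]
      rintro ⟨j, _, hj⟩
      exact root_notMem h w j hj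

lemma cut_one (d h : ℕ) (hd : 2 * d + 1 < 3 ^ (h + 1)) (w : List (Fin 3))
    (S : ℕ → Finset (List (Fin 3))) (hS : Chain d S)
    (h0 : nodes h w ⊆ S 0) : ∃ i, 1 ≤ (bd h w (S i)).card := by
  classical
  have hex : ∃ i, ¬ nodes h w ⊆ S i := by
    obtain ⟨i, hi⟩ := hS.zero
    refine ⟨i, fun h1 => ?_⟩
    rw [hi] at h1
    exact Finset.notMem_empty _ (h1 (root_mem _ _))
  have h1 := Nat.find_spec hex
  obtain ⟨k, hk⟩ : ∃ k, Nat.find hex = k + 1 := by
    refine ⟨Nat.find hex - 1, ?_⟩
    have : Nat.find hex ≠ 0 := fun h2 => by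
      rw [h2] at h1
      exact h1 h0
    omega
  have h2 : nodes h w ⊆ S k := by
    by_contra h3
    have := Nat.find_min' hex h3
    omega
  rw [hk] at h1
  refine ⟨k + 1, ?_⟩
  rw [Nat.one_le_iff_ne_zero, Ne, Finset.card_eq_zero]
  intro hbd
  have hc := conn h w _ hbd
  by_cases hw : w ∈ S (k + 1)
  · apply h1
    intro v hv
    exact (hc v hv).mpr hw
  · have h4 : nodes h w ⊆ S k \ S (k + 1) := by
      intro v hv
      rw [Finset.mem_sdiff]
      exact ⟨h2 hv, fun h3 => hw ((hc v hv).mp h3)⟩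
    have h5 := Finset.card_le_card h4
    have h6 := hS.one k
    have h7 := le_card_nodes h w
    omega

lemma three (t : Fin 3 → ℕ) : ∃ a m b : Fin 3, a ≠ m ∧ b ≠ m ∧ t m ≤ t a ∧ t b ≤ t m := by
  rcases le_total (t 0) (t 1) with h1 | h1 <;> rcases le_total (t 1) (t 2) with h2 | h2 <;>
    rcases le_total (t 0) (t 2) with h3 | h3
  · exact ⟨2, 1, 0, by decide, by decide, h2, h1⟩
  · exact ⟨2, 1, 0, by decide, by decide, h2, h1⟩
  · exact ⟨1, 2, 0, by decide, by decide, h2, h3⟩
  · exact ⟨1, 0, 2, by decide, by decide, h1, h3⟩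
  · exact ⟨2, 0, 1, by decide, by decide, h3, h1⟩
  · exact ⟨0, 2, 1, by decide, by decide, h3, h2⟩
  · exact ⟨0, 1, 2, by decide, by decide, h1, h2⟩
  · exact ⟨0, 1, 2, by decide, by decide, h1, h2⟩

/-- **Every chain cuts many edges.** -/
theorem cut (d k : ℕ) (hd : 2 * d + 1 < 3 ^ (k + 1)) (h : ℕ) (hkh : k ≤ h) :
    ∀ (w : List (Fin 3)) (S : ℕ → Finset (List (Fin 3))), Chain d S →
    nodes h w ⊆ S 0 → ∃ i, h + 1 - k ≤ (bd h w (S i)).card := by
  classical
  induction h, hkh using Nat.le_induction with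
  | base =>
    intro w S hS h0
    obtain ⟨i, hi⟩ := cut_one d k hd w S hS h0
    exact ⟨i, by omega⟩
  | succ h hkh ih =>
    intro w S hS h0
    have hpos : 0 < h + 1 - k := by omega
    have hI := fun j : Fin 3 => ih (j :: w) S hS ((child_sub h w j).trans h0)
    choose t ht using hI
    obtain ⟨a, m, b, ham, hbm, hta, htb⟩ := three t
    refine ⟨t m, ?_⟩
    -- an element of the subtree `a` in the set
    obtain ⟨x, hx, hxS⟩ : ∃ x ∈ nodes h (a :: w), x ∈ S (t m) := by
      have h1 := ht a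
      obtain ⟨v, hv⟩ := Finset.card_pos.mp (lt_of_lt_of_le hpos h1)
      rw [mem_bd] at hv
      by_cases hvS : v ∈ S (t a)
      · exact ⟨v, hv.1, hS.anti hta hvS⟩
      · refine ⟨v.tail, tail_mem _ _ _ hv.1 hv.2.1, hS.anti hta ?_⟩
        by_contra h2
        exact hv.2.2 ⟨fun h3 => absurd h3 hvS, fun h3 => absurd h3 h2⟩
    obtain ⟨y, hy, hyS⟩ : ∃ y ∈ nodes h (b :: w), y ∉ S (t m) := by
      have h1 := ht b
      obtain ⟨v, hv⟩ := Finset.card_pos.mp (lt_of_lt_of_le hpos h1)
      rw [mem_bd] at hv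
      by_cases hvS : v ∈ S (t b)
      · refine ⟨v.tail, tail_mem _ _ _ hv.1 hv.2.1, fun h3 => ?_⟩
        exact hv.2.2 ⟨fun _ => hS.anti htb h3, fun _ => hvS⟩
      · exact ⟨v, hv.1, fun h3 => hvS (hS.anti htb h3)⟩
    have hu : ∃ c : Fin 3, c ≠ m ∧ ∃ u ∈ nodes h (c :: w), u ∈ bd (h + 1) w (S (t m)) := by
      by_cases hw : w ∈ S (t m)
      · exact ⟨b, hbm, conn' h w _ b y hy fun h1 => hyS (h1.mpr hw)⟩
      · exact ⟨a, ham, conn' h w _ a x hx fun h1 => hw (h1.mp hxS)⟩
    obtain ⟨c, hcm, u, hu, hubd⟩ := hu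
    have hum : u ∉ bd h (m :: w) (S (t m)) := fun h1 =>
      child_disjoint h w hcm hu ((mem_bd _ _ _ _).mp h1).1
    have hsub : insert u (bd h (m :: w) (S (t m))) ⊆ bd (h + 1) w (S (t m)) := by
      intro v hv
      rcases Finset.mem_insert.mp hv with rfl | hv
      · exact hubd
      · exact bd_child h w _ m hv
    have hcard := Finset.card_le_card hsub
    rw [Finset.card_insert_of_notMem hum] at hcard
    have := ht m
    omega

/-- A chain from a predicate. -/
theorem exists_chain (d : ℕ) (P : Finset (List (Fin 3)) → Prop)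
    (hP : ∀ U, P U → U.Nonempty → ∃ V ⊆ U, V.Nonempty ∧ V.card ≤ d ∧ P (U \ V))
    (U₀ : Finset (List (Fin 3)))
    (h₀ : P U₀) : ∃ S : ℕ → Finset (List (Fin 3)), Chain d S ∧ S 0 = U₀ ∧ ∀ i, P (S i) := by
  classical
  choose! v hvs hvn hvc hvP using hP
  let step : {U // P U} → {U // P U} := fun U =>
    if hU : U.1.Nonempty then ⟨U.1 \ (v U.1), hvP U.1 U.2 hU⟩ else U
  let T : ℕ → {U // P U} := fun i => step^[i] ⟨U₀, h₀⟩
  have hT : ∀ i, T (i + 1) = step (T i) := fun i => Function.iterate_succ_apply' _ _ _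
  have hTn : ∀ i, (T i).1.Nonempty → (T (i + 1)).1 = (T i).1 \ (v (T i).1) := by
    intro i hi
    rw [hT]
    simp only [step]
    rw [dif_pos hi]
  have hTe : ∀ i, ¬ (T i).1.Nonempty → (T (i + 1)).1 = (T i).1 := by
    intro i hi
    rw [hT]
    simp only [step]
    rw [dif_neg hi]
  refine ⟨fun i => (T i).1, ⟨?_, ?_, ?_⟩, rfl, fun i => (T i).2⟩
  · intro i
    by_cases hi : (T i).1.Nonempty
    · rw [hTn i hi]
      exact Finset.sdiff_subset
    · rw [hTe i hi]
  · intro i
    by_cases hi : (T i).1.Nonempty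
    · rw [hTn i hi]
      have : (T i).1 \ ((T i).1 \ (v (T i).1)) ⊆ v (T i).1 := by
        intro x hx
        rw [Finset.mem_sdiff, Finset.mem_sdiff] at hx
        by_contra h1
        exact hx.2 ⟨hx.1, h1⟩
      exact (Finset.card_le_card this).trans (hvc _ (T i).2 hi)
    · rw [hTe i hi]
      simp
  · have hcard : ∀ i, (T i).1.card ≤ U₀.card - i := by
      intro i
      induction i with
      | zero => exact le_rfl
      | succ i ih =>
        by_cases hi : (T i).1.Nonempty
        · rw [hTn i hi, Finset.card_sdiff_of_subset (hvs _ (T i).2 hi)]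
          have := Finset.card_pos.mpr (hvn _ (T i).2 hi)
          omega
        · rw [hTe i hi, Finset.not_nonempty_iff_eq_empty.mp hi]
          simp
    refine ⟨U₀.card, ?_⟩
    have := hcard U₀.card
    exact Finset.card_eq_zero.mp (by omega)

end Pool.Agent.H176R4.TR
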