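import Mathlib
import Pool.Agent.H176R4.MT.Defs
import Pool.Agent.H176R4.TR.Cut

/-!
The evaluation polynomials of the complete ternary trees, their gauge symmetries, and skew circuits.
-/

set_option autoImplicit false

namespace Pool.Agent.H176R4.TR

open MvPolynomial Finset
open Pool.Agent.H176R4.MT (Circuit Kind)

/-- The variables: `(v, a, none)` is the variable `x (v; a)` of a leaf `v` with label `a`, and
`(v, a, some b)` is the variable `x (v; a, b 0, b 1, b 2)` of an inner node `v` with label `a` whose
children `0 :: v`, `1 :: v`, `2 :: v` have the labels `b 0`, `b 1`, `b 2`. -/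
abbrev Var (q : ℕ) : Type := List (Fin 3) × Fin q × Option (Fin 3 → Fin q)

/-- Pairs of a node and a label. -/
abbrev Idx (q : ℕ) : Type := List (Fin 3) × Fin q

/-- The evaluation polynomial of the complete ternary tree of height `h` with root `w`, where the
label of the root is `a`. -/
noncomputable def F (K : Type) [CommRing K] (q : ℕ) :
    ℕ → List (Fin 3) → Fin q → MvPolynomial (Var q) K
  | 0, w, a => X (w, a, none)
  | h + 1, w, a => ∑ b : Fin 3 → Fin q, X (w, a, some b) * ∏ j : Fin 3, F K q h (j :: w) (b j)

/-- The variable of the node `v` for the labelling `lam`, in the tree of height `h` with root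
`[]`. -/
def varOf {q : ℕ} (h : ℕ) (lam : List (Fin 3) → Fin q) (v : List (Fin 3)) : Var q :=
  (v, lam v, if v.length < h then some (fun j => lam (j :: v)) else none)

/-- The exponent of the monomial `∏ v ∈ U, x (v; …)` of the labelling `lam`. -/
noncomputable def mon {q : ℕ} (h : ℕ) (lam : List (Fin 3) → Fin q)
    (U : Finset (List (Fin 3))) : Var q →₀ ℕ :=
  ∑ v ∈ U, Finsupp.single (varOf h lam v) 1

/-- The weight of a variable: `+1` at (the node, its label), `-1` at (a child, its label). -/
noncomputable def wt1 {q : ℕ} : Var q → (Idx q →₀ ℤ)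
  | (w, a, none) => Finsupp.single (w, a) 1
  | (w, a, some b) => Finsupp.single (w, a) 1 - ∑ j : Fin 3, Finsupp.single (j :: w, b j) 1

/-- The weight of a monomial. -/
noncomputable def wt {q : ℕ} (d : Var q →₀ ℕ) : Idx q →₀ ℤ :=
  Finsupp.linearCombination ℕ wt1 d

/-- The character of `α` at the weight `e`: the product of the `α (v, a) ^ e (v, a)`. -/
noncomputable def chi {K : Type} [Field K] {q : ℕ} (α : Idx q → Kˣ) (e : Idx q →₀ ℤ) : Kˣ :=
  e.prod fun i n => α i ^ n

/-- The scaling (gauge transformation) of the variables given by `α`: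
`x (v; a) ↦ α (v, a) * x (v; a)` at the leaves, and at the inner nodes
`x (v; a, b) ↦ α (v, a) * ∏ j, α (j :: v, b j) ⁻¹ * x (v; a, b)`. -/
noncomputable def scale {K : Type} [Field K] {q : ℕ} (α : Idx q → Kˣ) :
    MvPolynomial (Var q) K →ₐ[K] MvPolynomial (Var q) K :=
  aeval fun x => C ((chi α (wt1 x) : Kˣ) : K) * X x

/-- `α` is multiplicatively independent. -/
def Independent {K : Type} [Field K] {q : ℕ} (α : Idx q → Kˣ) : Prop :=
  ∀ e : Idx q →₀ ℤ, chi α e = 1 → e = 0

/-- The circuit is `d`-skew: in every product `a * b`, the polynomial computed at `b` has degree at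
most `d`. -/
def Skew {K V : Type} [CommRing K] (d : ℕ) (Φ : Circuit K V) : Prop :=
  ∀ g a b, Φ.kind g = .mul a b → (Φ.val b).totalDegree ≤ d

/-- Every gate is mapped to a multiple of a gate by the scaling `α`. -/
def Symm {K : Type} [Field K] {q : ℕ} (Φ : Circuit K (Var q)) (α : Idx q → Kˣ) : Prop :=
  ∀ g, ∃ g', ∃ c : K, scale α (Φ.val g) = C c * Φ.val g'

/-- The homogeneous components of the products: the pairs of a product gate `a * b` and a weight
of a monomial which occurs in the polynomial computed at `a`. -/
def components {K : Type} [Field K] {q : ℕ} (Φ : Circuit K (Var q)) :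
    Set (Φ.Gate × (Idx q →₀ ℤ)) :=
  {p | ∃ a b d, Φ.kind p.1 = .mul a b ∧ coeff d (Φ.val a) ≠ 0 ∧ wt d = p.2}

end Pool.Agent.H176R4.TR
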