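import Mathlib
import Pool.Agent.H176R4.TR.Defs

/-!
The lower bound for skew circuits.
-/

set_option autoImplicit false

namespace Pool.Agent.H176R4.TR

open MvPolynomial Finset
open Pool.Agent.H176R4.MT (Circuit Kind)

variable {K : Type} [Field K] {q : ℕ}

lemma mon_apply (h : ℕ) (lam : List (Fin 3) → Fin q) (U : Finset (List (Fin 3))) (y : Var q) :
    mon h lam U y = if y.1 ∈ U ∧ varOf h lam y.1 = y then 1 else 0 := by
  classical
  unfold mon
  rw [Finsupp.finsetSum_apply]
  by_cases hy : y.1 ∈ U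
  · rw [Finset.sum_eq_single y.1]
    · rw [Finsupp.single_apply]
      simp [hy]
    · intro v _ hv
      rw [Finsupp.single_apply, if_neg]
      intro h1
      exact hv (congrArg Prod.fst h1)
    · exact fun h1 => absurd hy h1
  · rw [if_neg (fun h1 => hy h1.1), Finset.sum_eq_zero]
    intro v hv
    rw [Finsupp.single_apply, if_neg]
    intro h1
    have h2 : v = y.1 := congrArg Prod.fst h1
    exact hy (h2 ▸ hv)

lemma split_mon (h : ℕ) (lam : List (Fin 3) → Fin q) (U : Finset (List (Fin 3)))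
    (d₁ d₂ : Var q →₀ ℕ) (hd : d₁ + d₂ = mon h lam U) :
    ∃ U₁ U₂ : Finset (List (Fin 3)), Disjoint U₁ U₂ ∧ U₁ ∪ U₂ = U ∧ d₁ = mon h lam U₁ ∧
      d₂ = mon h lam U₂ := by
  classical
  refine ⟨U.filter fun v => d₁ (varOf h lam v) ≠ 0, U.filter fun v => ¬ d₁ (varOf h lam v) ≠ 0,
    Finset.disjoint_filter_filter_not _ _ _, Finset.filter_union_filter_not_eq _ _, ?_, ?_⟩
  · ext y
    have h1 : d₁ y + d₂ y = if y.1 ∈ U ∧ varOf h lam y.1 = y then 1 else 0 := by
      rw [← mon_apply, ← hd]
      rfl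
    rw [mon_apply]
    by_cases hy : varOf h lam y.1 = y
    · have hmem : y.1 ∈ (U.filter fun v => d₁ (varOf h lam v) ≠ 0) ↔ y.1 ∈ U ∧ d₁ y ≠ 0 := by
        rw [Finset.mem_filter, hy]
      by_cases hU : y.1 ∈ U
      · rw [if_pos ⟨hU, hy⟩] at h1
        by_cases h0 : d₁ y = 0
        · rw [if_neg, h0]
          exact fun h2 => (hmem.mp h2.1).2 h0
        · rw [if_pos ⟨hmem.mpr ⟨hU, h0⟩, hy⟩]
          omega
      · rw [if_neg (fun h => hU h.1)] at h1
        rw [if_neg (fun h => hU (hmem.mp h.1).1)]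
        omega
    · rw [if_neg (fun h => hy h.2)] at h1 ⊢
      omega
  · ext y
    have h1 : d₁ y + d₂ y = if y.1 ∈ U ∧ varOf h lam y.1 = y then 1 else 0 := by
      rw [← mon_apply, ← hd]
      rfl
    rw [mon_apply]
    by_cases hy : varOf h lam y.1 = y
    · have hmem : y.1 ∈ (U.filter fun v => ¬ d₁ (varOf h lam v) ≠ 0) ↔ y.1 ∈ U ∧ ¬ d₁ y ≠ 0 := by
        rw [Finset.mem_filter, hy]
      by_cases hU : y.1 ∈ U
      · rw [if_pos ⟨hU, hy⟩] at h1
        by_cases h0 : d₁ y = 0
        · rw [if_pos ⟨hmem.mpr ⟨hU, not_not.mpr h0⟩, hy⟩]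
          omega
        · rw [if_neg]
          · omega
          · exact fun h2 => (hmem.mp h2.1).2 h0
      · rw [if_neg (fun h => hU h.1)] at h1
        rw [if_neg (fun h => hU (hmem.mp h.1).1)]
        omega
    · rw [if_neg (fun h => hy h.2)] at h1 ⊢
      omega

lemma mon_degree (h : ℕ) (lam : List (Fin 3) → Fin q) (U : Finset (List (Fin 3))) :
    (mon h lam U).degree = U.card := by
  unfold mon
  rw [map_sum]
  simp

lemma coeff_list_sum {V : Type} (l : List (MvPolynomial V K)) (m : V →₀ ℕ)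
    (h : coeff m l.sum ≠ 0) : ∃ p ∈ l, coeff m p ≠ 0 := by
  by_contra hcon
  push Not at hcon
  apply h
  induction l with
  | nil => simp
  | cons a l ih =>
    rw [List.sum_cons, coeff_add, hcon a (List.mem_cons_self ..), zero_add]
    by_contra h2
    exact h2 (ih h2 (fun p hp => hcon p (List.mem_cons_of_mem _ hp)))

lemma mon_card_le (h : ℕ) (lam : List (Fin 3) → Fin q) (U : Finset (List (Fin 3)))
    (p : MvPolynomial (Var q) K) (hc : coeff (mon h lam U) p ≠ 0) {D : ℕ}
    (hD : p.totalDegree ≤ D) : U.card ≤ D := by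
  have h1 := le_totalDegree (MvPolynomial.mem_support_iff.mpr hc)
  have h3 : ((mon h lam U).sum fun _ e => e) = U.card := by
    rw [← mon_degree h lam U]
    rfl
  omega

lemma sdiff_eq_left' {U U₁ U₂ : Finset (List (Fin 3))} (hdisj : Disjoint U₁ U₂)
    (hun : U₁ ∪ U₂ = U) : U \ U₂ = U₁ := by
  classical
  rw [← hun]
  ext x
  rw [Finset.mem_sdiff, Finset.mem_union]
  constructor
  · rintro ⟨h6 | h6, h5⟩
    · exact h6
    · exact absurd h6 h5
  · intro h5
    exact ⟨Or.inl h5, fun h6 => Finset.disjoint_left.mp hdisj h5 h6⟩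

/-- the descent to the next product gate -/
theorem descend (D : ℕ) (hD : 1 ≤ D) (Φ : Circuit K (Var q)) (hs : Skew D Φ) (h : ℕ)
    (lam : List (Fin 3) → Fin q) :
    ∀ (n : ℕ) (g : Φ.Gate) (U : Finset (List (Fin 3))), Φ.height g = n →
      coeff (mon h lam U) (Φ.val g) ≠ 0 → U.Nonempty →
      ∃ V ⊆ U, V.Nonempty ∧ V.card ≤ D ∧ (U \ V = ∅ ∨ ∃ g' a b, Φ.kind g' = .mul a b ∧
        coeff (mon h lam (U \ V)) (Φ.val a) ≠ 0) := by
  classical
  intro n
  induction n using Nat.strong_induction_on with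
  | _ n ih =>
    intro g U hg hc hU
    have hrule := Φ.rule g
    rcases hk : Φ.kind g with v | c | l | ⟨a, b⟩
    · rw [hk] at hrule
      simp only at hrule
      rw [hrule, coeff_X] at hc
      have h1 : Finsupp.single v 1 = mon h lam U := by
        by_contra hne
        rw [if_neg hne] at hc
        exact hc rfl
      have h2 : U.card = 1 := by
        rw [← mon_degree h lam U, ← h1]
        simp
      exact ⟨U, Finset.Subset.refl _, hU, by omega, Or.inl (Finset.sdiff_self U)⟩
    · rw [hk] at hrule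
      simp only at hrule
      rw [hrule, coeff_C] at hc
      have h1 : 0 = mon h lam U := by
        by_contra hne
        rw [if_neg hne] at hc
        exact hc rfl
      have h2 : U.card = 0 := by
        rw [← mon_degree h lam U, ← h1]
        simp
      exact absurd (Finset.card_eq_zero.mp h2) hU.ne_empty
    · rw [hk] at hrule
      simp only at hrule
      obtain ⟨hh, hv⟩ := hrule
      rw [hv] at hc
      obtain ⟨p, hp, hpc⟩ := coeff_list_sum _ _ hc
      obtain ⟨r, hr, rfl⟩ := List.mem_map.mp hp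
      rw [coeff_C_mul] at hpc
      exact ih _ (hg ▸ hh r hr) r.2 U rfl (right_ne_zero_of_mul hpc) hU
    · have hk' := hk
      rw [hk] at hrule
      simp only at hrule
      obtain ⟨ha, hb, hv⟩ := hrule
      rw [hv, coeff_mul] at hc
      obtain ⟨⟨d₁, d₂⟩, hd, hne⟩ := Finset.exists_ne_zero_of_sum_ne_zero hc
      rw [Finset.HasAntidiagonal.mem_antidiagonal] at hd
      simp only at hd hne
      obtain ⟨U₁, U₂, hdisj, hun, rfl, rfl⟩ := split_mon h lam U d₁ d₂ hd
      have hc₁ : coeff (mon h lam U₁) (Φ.val a) ≠ 0 := left_ne_zero_of_mul hne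
      have hc₂ : coeff (mon h lam U₂) (Φ.val b) ≠ 0 := right_ne_zero_of_mul hne
      have hdeg := mon_card_le h lam U₂ (Φ.val b) hc₂ (hs g a b hk')
      rcases U₂.eq_empty_or_nonempty with h2 | h2
      · subst h2
        rw [Finset.union_empty] at hun
        subst hun
        exact ih _ (hg ▸ ha) a _ rfl hc₁ hU
      · refine ⟨U₂, hun ▸ Finset.subset_union_right, h2, hdeg, Or.inr ⟨g, a, b, hk', ?_⟩⟩
        rw [sdiff_eq_left' hdisj hun]
        exact hc₁

lemma bd_nodes (h : ℕ) (w : List (Fin 3)) : bd h w (nodes h w) = ∅ := by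
  rw [Finset.eq_empty_iff_forall_notMem]
  intro v hv
  rw [mem_bd] at hv
  exact hv.2.2 ⟨fun _ => tail_mem _ _ _ hv.1 hv.2.1, fun _ => hv.1⟩

lemma bd_empty (h : ℕ) (w : List (Fin 3)) : bd h w ∅ = ∅ := by
  rw [Finset.eq_empty_iff_forall_notMem]
  intro v hv
  rw [mem_bd] at hv
  exact hv.2.2 ⟨fun h1 => absurd h1 (Finset.notMem_empty _),
    fun h1 => absurd h1 (Finset.notMem_empty _)⟩

theorem exists_type (D k : ℕ) (hD : 1 ≤ D) (hk : 2 * D + 1 < 3 ^ (k + 1)) (Φ : Circuit K (Var q))
    (hs : Skew D Φ) (h : ℕ) (hh : k ≤ h)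
    (lam : List (Fin 3) → Fin q) (out : Φ.Gate)
    (hout : coeff (mon h lam (nodes h [])) (Φ.val out) ≠ 0) :
    ∃ g a b U, Φ.kind g = .mul a b ∧ coeff (mon h lam U) (Φ.val a) ≠ 0 ∧
      h + 1 - k ≤ (bd h [] U).card := by
  classical
  let P : Finset (List (Fin 3)) → Prop := fun U => U = nodes h [] ∨ U = ∅ ∨
    ∃ g a b, Φ.kind g = .mul a b ∧ coeff (mon h lam U) (Φ.val a) ≠ 0
  have key : ∀ (g : Φ.Gate) (U : Finset (List (Fin 3))), U.Nonempty →
      coeff (mon h lam U) (Φ.val g) ≠ 0 → ∃ V ⊆ U, V.Nonempty ∧ V.card ≤ D ∧ P (U \ V) := by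
    intro g U hU hc
    obtain ⟨V, h1, h2, h3, h4⟩ := descend D hD Φ hs h lam _ g U rfl hc hU
    exact ⟨V, h1, h2, h3, Or.inr h4⟩
  have hP : ∀ U, P U → U.Nonempty → ∃ V ⊆ U, V.Nonempty ∧ V.card ≤ D ∧ P (U \ V) := by
    rintro U (rfl | rfl | ⟨g, a, b, _, hc⟩) hU
    · exact key out _ hU hout
    · exact absurd hU Finset.not_nonempty_empty
    · exact key a U hU hc
  obtain ⟨S, hS, h0, hPS⟩ := exists_chain D P hP (nodes h []) (Or.inl rfl)
  obtain ⟨i, hi⟩ := cut D k hk h hh [] S hS h0.ge
  rcases hPS i with h1 | h1 | ⟨g, a, b, hk, hc⟩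
  · rw [h1, bd_nodes, Finset.card_empty] at hi
    omega
  · rw [h1, bd_empty, Finset.card_empty] at hi
    omega
  · exact ⟨g, a, b, S i, hk, hc, hi⟩

lemma wt_add (d d' : Var q →₀ ℕ) : wt (d + d') = wt d + wt d' := map_add _ _ _

lemma wt_single (x : Var q) : wt (Finsupp.single x 1) = wt1 x := by
  unfold wt
  rw [Finsupp.linearCombination_single, one_smul]

lemma wt_mon (h : ℕ) (lam : List (Fin 3) → Fin q) (U : Finset (List (Fin 3))) :
    wt (mon h lam U) = ∑ v ∈ U, wt1 (varOf h lam v) := by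
  unfold wt mon
  rw [map_sum]
  refine Finset.sum_congr rfl fun v _ => ?_
  rw [Finsupp.linearCombination_single, one_smul]

open Classical in
lemma wt1_varOf (h : ℕ) (lam : List (Fin 3) → Fin q) (v' v : List (Fin 3)) (j : Fin 3) (a : Fin q)
    (hv : v.length < h) : wt1 (varOf h lam v') (j :: v, a) =
      if lam (j :: v) = a then (if v' = j :: v then 1 else 0) - (if v' = v then 1 else 0)
      else 0 := by
  have hs : ∀ (u : List (Fin 3)), (Finsupp.single (u, lam u) (1 : ℤ) : Idx q →₀ ℤ) (j :: v, a) =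
      if lam (j :: v) = a ∧ u = j :: v then 1 else 0 := by
    intro u
    rw [Finsupp.single_apply]
    by_cases h1 : u = j :: v
    · subst h1
      simp
    · rw [if_neg, if_neg (fun h2 => h1 h2.2)]
      exact fun h2 => h1 (congrArg Prod.fst h2)
  by_cases hl : v'.length < h
  · have h1 : varOf h lam v' = (v', lam v', some fun j => lam (j :: v')) := by
      unfold varOf
      rw [if_pos hl]
    rw [h1]
    simp only [wt1]
    rw [Finsupp.sub_apply, Finsupp.finsetSum_apply, hs, Finset.sum_congr rfl (fun i _ => hs (i :: v'))]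
    have h2 : ∑ i : Fin 3, (if lam (j :: v) = a ∧ i :: v' = j :: v then (1 : ℤ) else 0) =
        if lam (j :: v) = a ∧ v' = v then 1 else 0 := by
      rw [Finset.sum_eq_single j]
      · simp
      · intro i _ hi
        rw [if_neg]
        exact fun h3 => hi (List.cons.inj h3.2).1
      · exact fun h3 => absurd (Finset.mem_univ _) h3
    rw [h2]
    by_cases ha : lam (j :: v) = a
    · simp [ha]
    · simp [ha]
  · have h1 : varOf h lam v' = (v', lam v', none) := by
      unfold varOf
      rw [if_neg hl]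
    rw [h1]
    simp only [wt1]
    rw [hs]
    have h2 : v' ≠ v := fun h3 => hl (h3 ▸ hv)
    by_cases ha : lam (j :: v) = a
    · simp [ha, h2]
    · simp [ha]

open Classical in
lemma wt_mon_apply (h : ℕ) (lam : List (Fin 3) → Fin q) (U : Finset (List (Fin 3)))
    (v : List (Fin 3)) (j : Fin 3) (a : Fin q) (hv : v.length < h) :
    wt (mon h lam U) (j :: v, a) =
      if lam (j :: v) = a then (if j :: v ∈ U then 1 else 0) - (if v ∈ U then 1 else 0) else 0 := by
  rw [wt_mon, Finsupp.finsetSum_apply,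
    Finset.sum_congr rfl (fun v' _ => wt1_varOf h lam v' v j a hv)]
  by_cases ha : lam (j :: v) = a
  · simp only [if_pos ha]
    rw [Finset.sum_sub_distrib, Finset.sum_ite_eq', Finset.sum_ite_eq']
  · simp only [if_neg ha]
    exact Finset.sum_const_zero

/-- equal weights have equal labels at the boundary -/
lemma agree (h : ℕ) (lam lam' : List (Fin 3) → Fin q) (U U' : Finset (List (Fin 3)))
    (he : wt (mon h lam U) = wt (mon h lam' U')) (u : List (Fin 3)) (hu : u ∈ bd h [] U) :
    lam' u = lam u := by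
  classical
  rw [mem_bd, mem_nodes] at hu
  obtain ⟨⟨_, hlen⟩, hne, hb⟩ := hu
  rcases u with _ | ⟨j, v⟩
  · exact absurd rfl hne
  · rw [List.length_cons, List.length_nil] at hlen
    rw [List.tail_cons] at hb
    have h1 := wt_mon_apply h lam U v j (lam (j :: v)) (by omega)
    have h2 := wt_mon_apply h lam' U' v j (lam (j :: v)) (by omega)
    by_contra hcon
    rw [if_neg hcon, ← he, h1, if_pos rfl] at h2
    by_cases a1 : j :: v ∈ U <;> by_cases a2 : v ∈ U
    · exact hb ⟨fun _ => a2, fun _ => a1⟩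
    · simp [a1, a2] at h2
    · simp [a1, a2] at h2
    · exact hb ⟨fun h3 => absurd h3 a1, fun h3 => absurd h3 a2⟩

lemma components_finite (Φ : Circuit K (Var q)) : (components Φ).Finite := by
  classical
  have := Φ.fin
  have h1 : components Φ ⊆ ⋃ g : Φ.Gate, ⋃ a : Φ.Gate,
      (fun d => (g, wt d)) '' ((Φ.val a).support : Set (Var q →₀ ℕ)) := by
    rintro ⟨g, e⟩ ⟨a, b, d, _, hd, he⟩
    rw [Set.mem_iUnion]
    refine ⟨g, ?_⟩
    rw [Set.mem_iUnion]
    refine ⟨a, d, ?_, ?_⟩
    · rw [Finset.mem_coe, MvPolynomial.mem_support_iff]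
      exact hd
    · simp only at he
      simp only [he]
  refine Set.Finite.subset ?_ h1
  exact Set.finite_iUnion fun g => Set.finite_iUnion fun a => (Finset.finite_toSet _).image _

/-- the nodes other than the root -/
abbrev DD (h : ℕ) : Finset (List (Fin 3)) := (nodes h []).erase []

/-- a labelling with label `a₀` at the root -/
def ext {h : ℕ} (a₀ : Fin q) (l : DD h → Fin q) (v : List (Fin 3)) : Fin q :=
  if hv : v ∈ DD h then l ⟨v, hv⟩ else a₀

lemma ext_root {h : ℕ} (a₀ : Fin q) (l : DD h → Fin q) : ext a₀ l [] = a₀ := by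
  unfold ext
  rw [dif_neg]
  simp

/-- counting labellings -/
theorem count {T : Type} (C : Finset T) (h r : ℕ) (a₀ : Fin q) (f : (DD h → Fin q) → T)
    (hfC : ∀ l, f l ∈ C)
    (U : (DD h → Fin q) → Finset (List (Fin 3))) (hbd : ∀ l, r ≤ (bd h [] (U l)).card)
    (hf : ∀ l l', f l = f l' →
      wt (mon h (ext a₀ l) (U l)) = wt (mon h (ext a₀ l') (U l'))) :
    q ^ r ≤ C.card := by
  classical
  have hextD : ∀ l (u : DD h), ext a₀ l u.1 = l u := by
    intro l u
    simp only [ext]
    rw [dif_pos u.2]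
  have hbdD : ∀ l, bd h [] (U l) ⊆ DD h := by
    intro l u hu
    rw [mem_bd] at hu
    rw [Finset.mem_erase]
    exact ⟨hu.2.1, hu.1⟩
  have hq : 0 < q := a₀.pos
  have hfib : ∀ e ∈ (univ : Finset (DD h → Fin q)).image f,
      ((univ : Finset (DD h → Fin q)).filter fun l => f l = e).card ≤ q ^ ((DD h).card - r) := by
    intro e he
    obtain ⟨l₀, _, rfl⟩ := Finset.mem_image.mp he
    let Bs : Finset (DD h) := univ.filter fun u => u.1 ∈ bd h [] (U l₀)
    have hBs : r ≤ Bs.card := by
      refine (hbd l₀).trans ?_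
      have h1 : bd h [] (U l₀) ⊆ Bs.image Subtype.val := by
        intro u hu
        rw [Finset.mem_image]
        exact ⟨⟨u, hbdD l₀ hu⟩, Finset.mem_filter.mpr ⟨Finset.mem_univ _, hu⟩, rfl⟩
      exact (Finset.card_le_card h1).trans Finset.card_image_le
    have hsub : ((univ : Finset (DD h → Fin q)).filter fun l => f l = f l₀) ⊆
        Fintype.piFinset fun u : DD h => if u ∈ Bs then {l₀ u} else univ := by
      intro l hl
      rw [Finset.mem_filter] at hl
      rw [Fintype.mem_piFinset]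
      intro u
      split_ifs with hu
      · rw [Finset.mem_singleton]
        have h1 := (hf l l₀ hl.2).symm
        have h2 := agree h (ext a₀ l₀) (ext a₀ l) (U l₀) (U l) h1 u.1 (Finset.mem_filter.mp hu).2
        rwa [hextD, hextD] at h2
      · exact Finset.mem_univ _
    refine (Finset.card_le_card hsub).trans ?_
    rw [Fintype.card_piFinset]
    have h3 : ∀ u : DD h, (if u ∈ Bs then {l₀ u} else univ : Finset (Fin q)).card =
        if u ∈ Bs then 1 else q := by
      intro u
      split_ifs <;> simp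
    rw [Finset.prod_congr rfl (fun u _ => h3 u), Finset.prod_ite, Finset.prod_const_one, one_mul,
      Finset.prod_const]
    apply Nat.pow_le_pow_right hq
    have h4 := Finset.card_filter_add_card_filter_not (s := (univ : Finset (DD h)))
      (fun u => u ∈ Bs)
    rw [Finset.card_univ, Fintype.card_coe] at h4
    have h5 : (univ.filter fun u => u ∈ Bs).card = Bs.card := by
      congr 1
      ext u
      simp
    omega
  have hcard := Finset.card_le_mul_card_image (f := f) (univ : Finset (DD h → Fin q))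
    (q ^ ((DD h).card - r)) hfib
  have himg : (univ : Finset (DD h → Fin q)).image f ⊆ C := by
    intro e he
    obtain ⟨l, _, rfl⟩ := Finset.mem_image.mp he
    exact hfC l
  have hcard2 := hcard.trans (Nat.mul_le_mul_left _ (Finset.card_le_card himg))
  rw [Finset.card_univ, Fintype.card_fun, Fintype.card_fin, Fintype.card_coe] at hcard2
  have hhD : r ≤ (DD h).card := (hbd fun _ => a₀).trans (Finset.card_le_card (hbdD fun _ => a₀))
  have h6 : q ^ (DD h).card = q ^ ((DD h).card - r) * q ^ r := by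
    rw [← pow_add]
    congr 1
    omega
  rw [h6] at hcard2
  exact Nat.le_of_mul_le_mul_left hcard2 (Nat.pow_pos hq)

/-- **The number of homogeneous components.** -/
theorem components_bound (D k : ℕ) (hD : 1 ≤ D) (hk : 2 * D + 1 < 3 ^ (k + 1))
    (Φ : Circuit K (Var q)) (hs : Skew D Φ) (h : ℕ) (hh : k ≤ h) (a₀ : Fin q)
    (out : Φ.Gate)
    (hout : ∀ lam : List (Fin 3) → Fin q, lam [] = a₀ →
      coeff (mon h lam (nodes h [])) (Φ.val out) ≠ 0) :
    q ^ (h + 1 - k) ≤ (components Φ).ncard := by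
  classical
  have hfin := components_finite Φ
  rw [Set.ncard_eq_toFinset_card _ hfin]
  choose G A B U hG hc hbd using fun l : DD h → Fin q =>
    exists_type D k hD hk Φ hs h hh (ext a₀ l) out (hout _ (ext_root a₀ l))
  refine count hfin.toFinset h (h + 1 - k) a₀
    (fun l => (G l, wt (mon h (ext a₀ l) (U l)))) ?_ U hbd ?_
  · intro l
    rw [Set.Finite.mem_toFinset]
    exact ⟨A l, B l, _, hG l, hc l, rfl⟩
  · intro l l' hl
    exact (Prod.ext_iff.mp hl).2

end Pool.Agent.H176R4.TR
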