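import Mathlib
import Pool.Agent.H176R4.TR.Low

/-!
Circuits with one gauge symmetry.
-/

set_option autoImplicit false

namespace Pool.Agent.H176R4.TR

open MvPolynomial Finset
open Pool.Agent.H176R4.MT (Circuit Kind)

variable {K : Type} [Field K] {q : ℕ}

lemma chi_add (α : Idx q → Kˣ) (e e' : Idx q →₀ ℤ) : chi α (e + e') = chi α e * chi α e' := by
  classical
  unfold chi
  exact Finsupp.prod_add_index' (fun i => zpow_zero _) (fun i _ _ => zpow_add _ _ _)

lemma chi_zero (α : Idx q → Kˣ) : chi α 0 = 1 := by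
  unfold chi
  exact Finsupp.prod_zero_index

lemma chi_nsmul (α : Idx q → Kˣ) (n : ℕ) (e : Idx q →₀ ℤ) : chi α (n • e) = chi α e ^ n := by
  induction n with
  | zero => rw [zero_nsmul, chi_zero, pow_zero]
  | succ n ih => rw [succ_nsmul, chi_add, ih, pow_succ]

lemma chi_wt (α : Idx q → Kˣ) (d : Var q →₀ ℕ) :
    ((chi α (wt d) : Kˣ) : K) = d.prod fun x n => ((chi α (wt1 x) : Kˣ) : K) ^ n := by
  classical
  induction d using Finsupp.induction_linear with
  | zero => simp [wt, chi_zero]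
  | add f g hf hg =>
    rw [Finsupp.prod_add_index' (by simp) (by intros; rw [pow_add]), ← hf, ← hg, wt_add, chi_add,
      Units.val_mul]
  | single x n =>
    rw [Finsupp.prod_single_index (by simp)]
    unfold wt
    rw [Finsupp.linearCombination_single, chi_nsmul, Units.val_pow_eq_pow_val]

theorem coeff_scale (α : Idx q → Kˣ) (d : Var q →₀ ℕ) (p : MvPolynomial (Var q) K) :
    coeff d (scale α p) = ((chi α (wt d) : Kˣ) : K) * coeff d p := by
  classical
  induction p using MvPolynomial.induction_on' with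
  | monomial u a =>
    have h1 : scale α (monomial u a) = monomial u (((chi α (wt u) : Kˣ) : K) * a) := by
      rw [scale, aeval_monomial, chi_wt]
      have h2 : (u.prod fun x n => (C ((chi α (wt1 x) : Kˣ) : K) * X x) ^ n :
          MvPolynomial (Var q) K) =
          C (u.prod fun x n => ((chi α (wt1 x) : Kˣ) : K) ^ n) * u.prod fun x n => X x ^ n := by
        simp only [mul_pow]
        rw [Finsupp.prod_mul]
        congr 1
        rw [map_finsuppProd]
        refine Finsupp.prod_congr fun x _ => ?_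
        rw [← map_pow]
      rw [h2, algebraMap_eq, ← mul_assoc, ← C_mul, monomial_eq (s := u)]
      ring_nf
    rw [h1, coeff_monomial, coeff_monomial]
    split_ifs with h
    · rw [h]
    · rw [mul_zero]
  | add p r hp hr => rw [map_add, coeff_add, coeff_add, hp, hr, mul_add]

/-- the gates are eigenvectors of a power -/
lemma exists_eigen (Φ : Circuit K (Var q)) (α : Idx q → Kˣ) (h : Symm Φ α)
    (g : Φ.Gate) (hg : Φ.val g ≠ 0) :
    ∃ m : ℕ, 1 ≤ m ∧ ∃ c : K, ∀ d, coeff d (Φ.val g) ≠ 0 →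
      ((chi α (wt d) : Kˣ) : K) ^ m = c := by
  classical
  choose nx cc hcc using h
  have hstep : ∀ g d, ((chi α (wt d) : Kˣ) : K) * coeff d (Φ.val g) =
      cc g * coeff d (Φ.val (nx g)) := by
    intro g d
    rw [← coeff_scale, hcc g, coeff_C_mul]
  have hit : ∀ k : ℕ, ∃ c : K, ∀ d, ((chi α (wt d) : Kˣ) : K) ^ k * coeff d (Φ.val g) =
      c * coeff d (Φ.val (nx^[k] g)) := by
    intro k
    induction k with
    | zero => exact ⟨1, fun d => by simp⟩
    | succ k ih =>
      obtain ⟨c, hc⟩ := ih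
      refine ⟨c * cc (nx^[k] g), fun d => ?_⟩
      rw [pow_succ, mul_comm (((chi α (wt d) : Kˣ) : K) ^ k), mul_assoc, hc d,
        Function.iterate_succ_apply', mul_left_comm, hstep, mul_assoc]
  have := Φ.fin
  obtain ⟨a, b, hab, heq⟩ : ∃ a b : ℕ, a < b ∧ nx^[a] g = nx^[b] g := by
    obtain ⟨a, b, hne, heq⟩ := Finite.exists_ne_map_eq_of_infinite (fun k : ℕ => nx^[k] g)
    rcases lt_or_gt_of_ne hne with h1 | h1
    · exact ⟨a, b, h1, heq⟩
    · exact ⟨b, a, h1, heq.symm⟩
  obtain ⟨ca, ha⟩ := hit a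
  obtain ⟨cb, hb⟩ := hit b
  obtain ⟨d₀, hd₀⟩ := MvPolynomial.ne_zero_iff.mp hg
  have hca : ca ≠ 0 := by
    intro h0
    have h1 := ha d₀
    rw [h0, zero_mul] at h1
    exact mul_ne_zero (pow_ne_zero _ (Units.ne_zero _)) hd₀ h1
  refine ⟨b - a, by omega, cb / ca, fun d hd => ?_⟩
  have h1 := ha d
  have h2 := hb d
  rw [← heq] at h2
  have h3 : ((chi α (wt d) : Kˣ) : K) ^ b = ((chi α (wt d) : Kˣ) : K) ^ (b - a) *
      ((chi α (wt d) : Kˣ) : K) ^ a := by
    rw [← pow_add]
    congr 1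
    omega
  have hP : coeff d (Φ.val (nx^[a] g)) ≠ 0 := by
    intro h0
    rw [h0, mul_zero] at h1
    exact mul_ne_zero (pow_ne_zero _ (Units.ne_zero _)) hd h1
  rw [h3, mul_assoc, h1] at h2
  rw [eq_div_iff hca]
  have h4 : (((chi α (wt d) : Kˣ) : K) ^ (b - a) * ca) * coeff d (Φ.val (nx^[a] g)) =
      cb * coeff d (Φ.val (nx^[a] g)) := by
    rw [mul_assoc]
    exact h2
  exact mul_right_cancel₀ hP h4

/-- every gate is homogeneous -/
lemma wt_unique (Φ : Circuit K (Var q)) (α : Idx q → Kˣ) (hi : Independent α) (h : Symm Φ α)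
    (g : Φ.Gate) {d d' : Var q →₀ ℕ} (hd : coeff d (Φ.val g) ≠ 0)
    (hd' : coeff d' (Φ.val g) ≠ 0) : wt d = wt d' := by
  have hne : Φ.val g ≠ 0 := by
    intro h0
    rw [h0] at hd
    exact hd (coeff_zero _)
  obtain ⟨m, hm, c, hc⟩ := exists_eigen Φ α h g hne
  have e1 := hc _ hd
  rw [← hc _ hd'] at e1
  have e3 : chi α (wt d) ^ m = chi α (wt d') ^ m := by
    apply Units.ext
    push_cast
    exact e1
  have e4 : chi α (m • (wt d - wt d')) = 1 := by
    have h5 : chi α (m • (wt d - wt d')) * chi α (m • wt d') = chi α (m • wt d) := by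
      rw [← chi_add, smul_sub, sub_add_cancel]
    rw [chi_nsmul α m (wt d), chi_nsmul α m (wt d'), e3] at h5
    exact mul_eq_right.mp h5
  have e5 := hi _ e4
  rw [smul_eq_zero] at e5
  rcases e5 with h6 | h6
  · omega
  · exact sub_eq_zero.mp h6

/-- **Skew circuits with one gauge symmetry.** -/
theorem symm_bound (D k : ℕ) (hD : 1 ≤ D) (hk : 2 * D + 1 < 3 ^ (k + 1))
    (Φ : Circuit K (Var q)) (hs : Skew D Φ) (h : ℕ) (hh : k ≤ h) (a₀ : Fin q)
    (out : Φ.Gate)
    (hout : ∀ lam : List (Fin 3) → Fin q, lam [] = a₀ →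
      coeff (mon h lam (nodes h [])) (Φ.val out) ≠ 0)
    (α : Idx q → Kˣ) (hi : Independent α) (hS : Symm Φ α) :
    q ^ (h + 1 - k) ≤ Φ.products := by
  refine (components_bound D k hD hk Φ hs h hh a₀ out hout).trans ?_
  have := Φ.fin
  unfold Circuit.products
  apply Set.ncard_le_ncard_of_injOn (fun e => e.1)
  · rintro e ⟨a, b, d, hk, _⟩
    exact ⟨a, b, hk⟩
  · rintro ⟨g, e⟩ ⟨a, b, d, hk, hd, he⟩ ⟨g', e'⟩ ⟨a', b', d', hk', hd', he'⟩ hgg
    simp only at hgg hk hk' hd hd' he he'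
    subst hgg
    rw [hk] at hk'
    injection hk' with ha hb
    subst ha
    rw [← he, ← he', wt_unique Φ α hi hS a hd hd']

end Pool.Agent.H176R4.TR
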