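import Mathlib
import Pool.Agent.H176R4.TR.Sym

/-!
The coefficients of the tree polynomials, and their gauge symmetries.
-/

set_option autoImplicit false

namespace Pool.Agent.H176R4.TR

open MvPolynomial Finset
open Pool.Agent.H176R4.MT (Circuit Kind)

variable {q : ℕ}

lemma varOf_inj (h : ℕ) (lam : List (Fin 3) → Fin q) : Function.Injective (varOf h lam) :=
  fun _ _ h1 => congrArg Prod.fst h1

section ring

variable {K : Type} [CommRing K]

lemma kc_X (h : ℕ) (lam : List (Fin 3) → Fin q) (v : List (Fin 3)) :
    killCompl (R := K) (varOf_inj h lam) (X (varOf h lam v)) = X v := by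
  have := killCompl_rename_app (R := K) (varOf_inj h lam) (X v)
  rwa [rename_X] at this

lemma kc_zero (h : ℕ) (lam : List (Fin 3) → Fin q) (y : Var q)
    (hy : y ≠ varOf h lam y.1) : killCompl (R := K) (varOf_inj h lam) (X y) = 0 := by
  classical
  rw [killCompl, aeval_X, dif_neg]
  rintro ⟨v, hv⟩
  apply hy
  rw [← hv]
  rfl

theorem kc_F (h : ℕ) (lam : List (Fin 3) → Fin q) (k : ℕ) : ∀ (w : List (Fin 3)),
    k + w.length = h → ∀ a : Fin q,
    killCompl (R := K) (varOf_inj h lam) (F K q k w a) =
      if a = lam w then ∏ v ∈ nodes k w, X v else 0 := by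
  classical
  induction k with
  | zero =>
    intro w hw a
    have h1 : varOf h lam w = (w, lam w, none) := by
      unfold varOf
      rw [if_neg (by omega)]
    rw [F]
    split_ifs with ha
    · subst ha
      rw [← h1, kc_X, nodes, Finset.prod_singleton]
    · apply kc_zero
      intro h2
      simp only at h2
      rw [h1] at h2
      exact ha (Prod.ext_iff.mp (Prod.ext_iff.mp h2).2).1
  | succ k ih =>
    intro w hw a
    have h1 : varOf h lam w = (w, lam w, some fun j => lam (j :: w)) := by
      unfold varOf
      rw [if_pos (by omega)]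
    rw [F, map_sum]
    simp only [map_mul, map_prod]
    have hih : ∀ (j : Fin 3) (c : Fin q),
        killCompl (R := K) (varOf_inj h lam) (F K q k (j :: w) c) =
        if c = lam (j :: w) then ∏ v ∈ nodes k (j :: w), X v else 0 := by
      intro j c
      exact ih (j :: w) (by rw [List.length_cons]; omega) c
    simp only [hih]
    rw [Finset.sum_eq_single (fun j => lam (j :: w))]
    · split_ifs with ha
      · subst ha
        rw [← h1, kc_X]
        simp only [if_true]
        rw [nodes, Finset.prod_insert, Finset.prod_biUnion]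
        · intro i _ j _ hij
          rw [Function.onFun, Finset.disjoint_left]
          intro v hv
          exact child_disjoint k w hij hv
        · rw [Finset.mem_biUnion]
          rintro ⟨j, _, hj⟩
          exact root_notMem k w j hj
      · rw [kc_zero, zero_mul]
        intro h2
        simp only at h2
        rw [h1] at h2
        exact ha (Prod.ext_iff.mp (Prod.ext_iff.mp h2).2).1
    · intro b _ hb
      rw [kc_zero, zero_mul]
      intro h2
      simp only at h2
      rw [h1] at h2
      exact hb (Option.some.inj (Prod.ext_iff.mp (Prod.ext_iff.mp h2).2).2)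
    · exact fun h2 => absurd (Finset.mem_univ _) h2

theorem coeff_F (h : ℕ) (lam : List (Fin 3) → Fin q) (a₀ : Fin q) (ha : lam [] = a₀) :
    coeff (mon h lam (nodes h [])) (F K q h [] a₀) = 1 := by
  classical
  have h1 : mon h lam (nodes h []) =
      (∑ v ∈ nodes h [], Finsupp.single v 1 : List (Fin 3) →₀ ℕ).mapDomain (varOf h lam) := by
    unfold mon
    rw [Finsupp.mapDomain_finset_sum]
    refine Finset.sum_congr rfl fun v _ => ?_
    rw [Finsupp.mapDomain_single]
  rw [h1, ← coeff_killCompl (varOf_inj h lam), kc_F h lam h [] (by simp) a₀, if_pos ha.symm]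
  have h2 : (∏ v ∈ nodes h [], (X v : MvPolynomial (List (Fin 3)) K)) =
      monomial (∑ v ∈ nodes h [], Finsupp.single v 1) 1 := by
    rw [monomial_sum_one]
    rfl
  rw [h2, coeff_monomial, if_pos rfl]

end ring

section field

variable {K : Type} [Field K]

lemma chi_single (α : Idx q → Kˣ) (i : Idx q) : chi α (Finsupp.single i 1) = α i := by
  unfold chi
  rw [Finsupp.prod_single_index (zpow_zero _), zpow_one]

lemma chi_sub (α : Idx q → Kˣ) (e e' : Idx q →₀ ℤ) : chi α (e - e') * chi α e' = chi α e := by
  rw [← chi_add, sub_add_cancel]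

lemma chi_sum (α : Idx q → Kˣ) (e : Fin 3 → (Idx q →₀ ℤ)) :
    chi α (∑ j, e j) = ∏ j, chi α (e j) := by
  rw [Fin.sum_univ_three, Fin.prod_univ_three, chi_add, chi_add]

lemma scale_X (α : Idx q → Kˣ) (x : Var q) :
    scale α (X x) = C ((chi α (wt1 x) : Kˣ) : K) * X x := by
  rw [scale, aeval_X]

theorem scale_F (α : Idx q → Kˣ) (k : ℕ) : ∀ (w : List (Fin 3)) (a : Fin q),
    scale α (F K q k w a) = C ((α (w, a) : Kˣ) : K) * F K q k w a := by
  induction k with
  | zero =>
    intro w a
    rw [F, scale_X]
    simp only [wt1]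
    rw [chi_single]
  | succ k ih =>
    intro w a
    rw [F, map_sum, Finset.mul_sum]
    refine Finset.sum_congr rfl fun b _ => ?_
    rw [map_mul, map_prod, scale_X]
    simp only [ih]
    rw [Finset.prod_mul_distrib, ← map_prod]
    have h1 : ((chi α (wt1 (w, a, some b)) : Kˣ) : K) * ∏ j, ((α (j :: w, b j) : Kˣ) : K) =
        ((α (w, a) : Kˣ) : K) := by
      have h2 := chi_sub α (Finsupp.single (w, a) 1) (∑ j : Fin 3, Finsupp.single (j :: w, b j) 1)
      rw [chi_sum, chi_single] at h2
      simp only [chi_single] at h2
      rw [← h2]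
      simp only [wt1]
      push_cast
      rfl
    rw [← h1, C_mul]
    ring

end field

end Pool.Agent.H176R4.TR
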