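import Mathlib
import Pool.Agent.H176R4.TR.Coeff

/-!
Small circuits for the tree polynomials, with all gauge symmetries.
-/

set_option autoImplicit false

namespace Pool.Agent.H176R4.TR

open MvPolynomial Finset
open Pool.Agent.H176R4.MT (Circuit Kind)

variable {q : ℕ}

/-- the nodes -/
abbrev NN (h : ℕ) : Type := {v : List (Fin 3) // v.length ≤ h}

/-- the inner nodes -/
abbrev II (h : ℕ) : Type := {v : List (Fin 3) // v.length < h}

/-- the gates of the circuit -/
abbrev UG (h q : ℕ) : Type :=
  (NN h × Fin q × Option (Fin 3 → Fin q)) ⊕ (NN h × Fin q) ⊕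
    ((II h × (Fin 3 → Fin q)) ⊕ (II h × (Fin 3 → Fin q)) ⊕ (II h × Fin q × (Fin 3 → Fin q)))

/-- variables -/
abbrev gA {h q : ℕ} (v : NN h) (a : Fin q) (b : Option (Fin 3 → Fin q)) : UG h q :=
  .inl (v, a, b)

/-- tree polynomials -/
abbrev gB {h q : ℕ} (v : NN h) (a : Fin q) : UG h q := .inr (.inl (v, a))

/-- products of two tree polynomials -/
abbrev g1 {h q : ℕ} (v : II h) (b : Fin 3 → Fin q) : UG h q := .inr (.inr (.inl (v, b)))

/-- products of three tree polynomials -/
abbrev g2 {h q : ℕ} (v : II h) (b : Fin 3 → Fin q) : UG h q := .inr (.inr (.inr (.inl (v, b))))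

/-- products with a variable -/
abbrev g3 {h q : ℕ} (v : II h) (a : Fin q) (b : Fin 3 → Fin q) : UG h q :=
  .inr (.inr (.inr (.inr (v, a, b))))

/-- a child -/
abbrev ch {h : ℕ} (v : II h) (j : Fin 3) : NN h := ⟨j :: v.1, v.2⟩

/-- an inner node -/
abbrev up {h : ℕ} (v : II h) : NN h := ⟨v.1, v.2.le⟩

instance finiteNN (h : ℕ) : Finite (NN h) := List.finite_length_le _ _

instance finiteII (h : ℕ) : Finite (II h) := List.finite_length_lt _ _

lemma rootNN_len (h : ℕ) : ([] : List (Fin 3)).length ≤ h := Nat.zero_le _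

/-- the kinds of the gates -/
noncomputable def ukind (K : Type) [CommRing K] (h q : ℕ) : UG h q → Kind K (Var q) (UG h q)
  | .inl (v, a, b) => .var (v.1, a, b)
  | .inr (.inl (v, a)) => if hv : v.1.length < h then
      .lin ((Finset.univ : Finset (Fin 3 → Fin q)).toList.map fun b => (1, g3 ⟨v.1, hv⟩ a b))
    else .var (v.1, a, none)
  | .inr (.inr (.inl (v, b))) => .mul (gB (ch v 0) (b 0)) (gB (ch v 1) (b 1))
  | .inr (.inr (.inr (.inl (v, b)))) => .mul (g1 v b) (gB (ch v 2) (b 2))
  | .inr (.inr (.inr (.inr (v, a, b)))) => .mul (gA (up v) a (some b)) (g2 v b)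

/-- the heights of the gates -/
def uheight (h q : ℕ) : UG h q → ℕ
  | .inl _ => 0
  | .inr (.inl (v, _)) => 4 * (h - v.1.length)
  | .inr (.inr (.inl (v, _))) => 4 * (h - v.1.length) - 3
  | .inr (.inr (.inr (.inl (v, _)))) => 4 * (h - v.1.length) - 2
  | .inr (.inr (.inr (.inr (v, _, _)))) => 4 * (h - v.1.length) - 1

/-- the polynomials at the gates -/
noncomputable def uval (K : Type) [CommRing K] (h q : ℕ) : UG h q → MvPolynomial (Var q) K
  | .inl (v, a, b) => X (v.1, a, b)
  | .inr (.inl (v, a)) => F K q (h - v.1.length) v.1 a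
  | .inr (.inr (.inl (v, b))) =>
      F K q (h - (0 :: v.1).length) (0 :: v.1) (b 0) * F K q (h - (1 :: v.1).length) (1 :: v.1) (b 1)
  | .inr (.inr (.inr (.inl (v, b)))) =>
      F K q (h - (0 :: v.1).length) (0 :: v.1) (b 0) *
        F K q (h - (1 :: v.1).length) (1 :: v.1) (b 1) *
        F K q (h - (2 :: v.1).length) (2 :: v.1) (b 2)
  | .inr (.inr (.inr (.inr (v, a, b)))) => X (v.1, a, some b) *
      (F K q (h - (0 :: v.1).length) (0 :: v.1) (b 0) *
        F K q (h - (1 :: v.1).length) (1 :: v.1) (b 1) *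
        F K q (h - (2 :: v.1).length) (2 :: v.1) (b 2))

/-- the circuit -/
noncomputable def ucirc (K : Type) [CommRing K] (h q : ℕ) : Circuit K (Var q) where
  Gate := UG h q
  fin := inferInstance
  kind := ukind K h q
  height := uheight h q
  val := uval K h q
  rule := by
    rintro (⟨v, a, b⟩ | ⟨v, a⟩ | ⟨v, b⟩ | ⟨v, b⟩ | ⟨v, a, b⟩)
    · simp only [ukind, uval]
    · by_cases hv : v.1.length < h
      · have h1 : ukind K h q (.inr (.inl (v, a))) =
            .lin ((Finset.univ : Finset (Fin 3 → Fin q)).toList.map fun b =>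
              (1, g3 ⟨v.1, hv⟩ a b)) := by
          simp only [ukind]
          rw [dif_pos hv]
        rw [h1]
        simp only
        constructor
        · intro p hp
          obtain ⟨b, _, rfl⟩ := List.mem_map.mp hp
          simp only [uheight]
          omega
        · rw [List.map_map]
          simp only [uval, Function.comp_def, C_1, one_mul]
          obtain ⟨k, hk⟩ : ∃ k, h - v.1.length = k + 1 := ⟨h - v.1.length - 1, by omega⟩
          have hk' : ∀ j : Fin 3, h - (j :: v.1).length = k := by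
            intro j
            rw [List.length_cons]
            omega
          rw [hk, F]
          simp only [hk', Fin.prod_univ_three]
          rw [Finset.sum_map_toList]
      · have h1 : ukind K h q (.inr (.inl (v, a))) = .var (v.1, a, none) := by
          simp only [ukind]
          rw [dif_neg hv]
        rw [h1]
        simp only [uval]
        have h2 : h - v.1.length = 0 := by omega
        rw [h2, F]
    · simp only [ukind, uval, uheight]
      have := v.2
      refine ⟨?_, ?_, trivial⟩ <;> rw [List.length_cons] <;> omega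
    · simp only [ukind, uval, uheight]
      have := v.2
      refine ⟨?_, ?_, trivial⟩
      · omega
      · rw [List.length_cons]
        omega
    · simp only [ukind, uval, uheight]
      have := v.2
      refine ⟨?_, ?_, trivial⟩ <;> omega

lemma card_nodes (h : ℕ) : ∀ w : List (Fin 3), 2 * (nodes h w).card + 1 ≤ 3 ^ (h + 1) := by
  induction h with
  | zero => intro w; simp [nodes]
  | succ h ih =>
    intro w
    rw [nodes]
    have h1 := Finset.card_insert_le w (Finset.univ.biUnion fun j : Fin 3 => nodes h (j :: w))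
    have h2 : (Finset.univ.biUnion fun j : Fin 3 => nodes h (j :: w)).card ≤
        ∑ j : Fin 3, (nodes h (j :: w)).card := Finset.card_biUnion_le
    rw [Fin.sum_univ_three] at h2
    have h3 := ih (0 :: w)
    have h4 := ih (1 :: w)
    have h5 := ih (2 :: w)
    rw [pow_succ]
    omega

lemma card_II (h : ℕ) : 2 * Nat.card (II h) + 1 ≤ 3 ^ h := by
  rcases Nat.eq_zero_or_pos h with rfl | hh
  · have : IsEmpty (II 0) := ⟨fun v => Nat.not_lt_zero _ v.2⟩
    simp
  · obtain ⟨k, rfl⟩ : ∃ k, h = k + 1 := ⟨h - 1, by omega⟩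
    refine le_trans ?_ (card_nodes k [])
    have h1 : Nat.card (II (k + 1)) ≤ Nat.card (nodes k []) := by
      apply Nat.card_le_card_of_injective
        (fun v : II (k + 1) => (⟨v.1, (mem_nodes k [] v.1).mpr
          ⟨List.nil_suffix, by have := v.2; rw [List.length_nil]; omega⟩⟩ : nodes k []))
      intro v v' hv
      exact Subtype.ext (congrArg (fun x : nodes k [] => x.1) hv)
    rw [Nat.card_eq_fintype_card (α := nodes k []), Fintype.card_coe] at h1
    omega

theorem ucirc_products (K : Type) [CommRing K] (h q : ℕ) (a₀ : Fin q) :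
    (ucirc K h q).products ≤ 3 ^ (h + 1) * q ^ 4 := by
  classical
  have hq : 0 < q := a₀.pos
  unfold Circuit.products
  have h1 : {g : (ucirc K h q).Gate | ∃ a b, (ucirc K h q).kind g = .mul a b} ⊆
      (fun t => (.inr (.inr t) : UG h q)) '' Set.univ := by
    rintro (⟨v, a, b⟩ | ⟨v, a⟩ | t) ⟨x, y, hxy⟩
    · exact absurd hxy (by simp [ucirc, ukind])
    · exfalso
      simp only [ucirc, ukind] at hxy
      by_cases hv : v.1.length < h
      · rw [dif_pos hv] at hxy
        exact Kind.noConfusion rfl rfl rfl (heq_of_eq hxy)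
      · rw [dif_neg hv] at hxy
        exact Kind.noConfusion rfl rfl rfl (heq_of_eq hxy)
    · exact ⟨t, Set.mem_univ _, rfl⟩
  have hfU : (Set.univ : Set ((II h × (Fin 3 → Fin q)) ⊕ (II h × (Fin 3 → Fin q)) ⊕
      (II h × Fin q × (Fin 3 → Fin q)))).Finite := Set.toFinite _
  refine (Set.ncard_le_ncard h1 (hfU.image _)).trans ?_
  refine (Set.ncard_image_le hfU).trans ?_
  rw [Set.ncard_univ, Nat.card_sum, Nat.card_sum, Nat.card_prod, Nat.card_prod, Nat.card_prod,
    Nat.card_fun, Nat.card_eq_fintype_card (α := Fin q), Nat.card_eq_fintype_card (α := Fin 3),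
    Fintype.card_fin, Fintype.card_fin]
  have h2 := card_II h
  have h3 : q ^ 3 ≤ q ^ 4 := Nat.pow_le_pow_right hq (by norm_num)
  have h4 : q * q ^ 3 = q ^ 4 := by ring
  rw [h4]
  calc Nat.card (II h) * q ^ 3 + (Nat.card (II h) * q ^ 3 + Nat.card (II h) * q ^ 4)
      ≤ Nat.card (II h) * q ^ 4 + (Nat.card (II h) * q ^ 4 + Nat.card (II h) * q ^ 4) := by
        gcongr
    _ = 3 * Nat.card (II h) * q ^ 4 := by ring
    _ ≤ 3 ^ (h + 1) * q ^ 4 := by
        apply Nat.mul_le_mul_right
        rw [pow_succ]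
        omega

/-- every gate of the circuit is an eigenvector of every scaling -/
theorem ucirc_symm {K : Type} [Field K] (h q : ℕ) (α : Idx q → Kˣ) (g : (ucirc K h q).Gate) :
    ∃ c : K, scale α ((ucirc K h q).val g) = C c * (ucirc K h q).val g := by
  have hm : ∀ (p r : MvPolynomial (Var q) K), (∃ c : K, scale α p = C c * p) →
      (∃ c : K, scale α r = C c * r) → ∃ c : K, scale α (p * r) = C c * (p * r) := by
    rintro p r ⟨c, hc⟩ ⟨d, hd⟩
    refine ⟨c * d, ?_⟩
    rw [map_mul, hc, hd, C_mul]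
    ring
  have hX : ∀ x : Var q, ∃ c : K, scale α (X x) = C c * X x := fun x => ⟨_, scale_X α x⟩
  have hF : ∀ (k : ℕ) (w : List (Fin 3)) (a : Fin q),
      ∃ c : K, scale α (F K q k w a) = C c * F K q k w a := fun k w a => ⟨_, scale_F α k w a⟩
  rcases g with ⟨v, a, b⟩ | ⟨v, a⟩ | ⟨v, b⟩ | ⟨v, b⟩ | ⟨v, a, b⟩
  · exact hX _
  · exact hF _ _ _
  · exact hm _ _ (hF _ _ _) (hF _ _ _)
  · exact hm _ _ (hm _ _ (hF _ _ _) (hF _ _ _)) (hF _ _ _)
  · exact hm _ _ (hX _) (hm _ _ (hm _ _ (hF _ _ _) (hF _ _ _)) (hF _ _ _))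

theorem ucirc_out (K : Type) [CommRing K] (h q : ℕ) (a₀ : Fin q) :
    (ucirc K h q).val (gB ⟨[], rootNN_len h⟩ a₀) = F K q h [] a₀ := by
  simp only [ucirc, uval]
  rw [List.length_nil, Nat.sub_zero]

end Pool.Agent.H176R4.TR
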