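import Mathlib
import Pool.Agent.H176R4.TR.Upper

/-!
Multiplicatively independent families, and circuits whose span has one gauge symmetry.
-/

set_option autoImplicit false

namespace Pool.Agent.H176R4.TR

open MvPolynomial Finset
open Pool.Agent.H176R4.MT (Circuit Kind)

variable {q : ℕ}

theorem exists_independent (K : Type) [Field K] [CharZero K] (q : ℕ) :
    ∃ α : Idx q → Kˣ, Independent α := by
  classical
  let P : Idx q → ℕ := fun i => Nat.nth Nat.Prime (Encodable.encode i)
  have hP : ∀ i, (P i).Prime := fun i => Nat.prime_nth_prime _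
  have hinj : Function.Injective P :=
    (Nat.nth_injective Nat.infinite_setOf_prime).comp Encodable.encode_injective
  let u : Idx q → ℚˣ := fun i => Units.mk0 (P i : ℚ) (by exact_mod_cast (hP i).ne_zero)
  have hu : ∀ e : Idx q →₀ ℤ, (e.prod fun i n => u i ^ n) = 1 → e = 0 := by
    intro e he
    ext i₀
    have := Fact.mk (hP i₀)
    let v : ℚˣ →* Multiplicative ℤ :=
      { toFun := fun x => Multiplicative.ofAdd (padicValRat (P i₀) x)
        map_one' := by simp
        map_mul' := fun x y => by
          rw [Units.val_mul, padicValRat.mul x.ne_zero y.ne_zero, ofAdd_add] }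
    have h1 := congrArg v he
    rw [map_one, map_finsuppProd] at h1
    have h2 : ∀ i, v (u i) = Multiplicative.ofAdd (if i = i₀ then 1 else 0) := by
      intro i
      have h3 : v (u i) = Multiplicative.ofAdd (padicValRat (P i₀) (P i : ℚ)) := rfl
      rw [h3]
      congr 1
      by_cases hi : i = i₀
      · subst hi
        rw [if_pos rfl]
        exact padicValRat.self (hP _).one_lt
      · rw [if_neg hi, padicValRat.of_nat]
        have h4 : padicValNat (P i₀) (P i) = 0 :=
          padicValNat_primes (hp := Fact.mk (hP i₀)) (hq := Fact.mk (hP i))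
            (fun h5 => hi (hinj h5).symm)
        exact_mod_cast h4
    simp only [map_zpow, h2] at h1
    rw [Finsupp.prod, Finset.prod_eq_single i₀] at h1
    · rw [if_pos rfl, ← ofAdd_zsmul] at h1
      have h6 := congrArg Multiplicative.toAdd h1
      simpa using h6
    · intro i _ hi
      rw [if_neg hi, ofAdd_zero, one_zpow]
    · intro hi
      rw [Finsupp.notMem_support_iff.mp hi, zpow_zero]
  refine ⟨fun i => Units.map (algebraMap ℚ K).toMonoidHom (u i), ?_⟩
  intro e he
  apply hu
  apply Units.map_injective (f := (algebraMap ℚ K).toMonoidHom) (algebraMap ℚ K).injective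
  rw [map_one, ← he]
  unfold chi
  rw [map_finsuppProd]
  simp only [map_zpow]

variable {K : Type} [Field K]

/-- the span of the gates -/
noncomputable def space (Φ : Circuit K (Var q)) : Submodule K (MvPolynomial (Var q) K) :=
  Submodule.span K (Set.range Φ.val)

/-- the weights which occur in the gates -/
def weights (Φ : Circuit K (Var q)) : Set (Idx q →₀ ℤ) :=
  {e | ∃ g d, coeff d (Φ.val g) ≠ 0 ∧ wt d = e}

lemma weights_finite (Φ : Circuit K (Var q)) : (weights Φ).Finite := by
  classical
  have := Φ.fin
  have h1 : weights Φ ⊆ ⋃ a : Φ.Gate, wt '' ((Φ.val a).support : Set (Var q →₀ ℕ)) := by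
    rintro e ⟨a, d, hd, he⟩
    rw [Set.mem_iUnion]
    refine ⟨a, d, ?_, he⟩
    rw [Finset.mem_coe, MvPolynomial.mem_support_iff]
    exact hd
  refine Set.Finite.subset ?_ h1
  exact Set.finite_iUnion fun a => (Finset.finite_toSet _).image _

lemma weights_le (Φ : Circuit K (Var q)) (α : Idx q → Kˣ) (hi : Independent α)
    (h : ∀ g, scale α (Φ.val g) ∈ space Φ) :
    (weights Φ).ncard ≤ Module.finrank K (space Φ) := by
  classical
  have hfin := Φ.fin
  have : FiniteDimensional K (space Φ) := FiniteDimensional.span_of_finite K (Set.finite_range _)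
  have hmap : ∀ p ∈ space Φ, scale α p ∈ space Φ := by
    intro p hp
    unfold space at hp
    induction hp using Submodule.span_induction with
    | mem x hx =>
      obtain ⟨g, rfl⟩ := hx
      exact h g
    | zero => rw [map_zero]; exact Submodule.zero_mem _
    | add x y _ _ hx hy => rw [map_add]; exact Submodule.add_mem _ hx hy
    | smul a x _ hx => rw [map_smul]; exact Submodule.smul_mem _ _ hx
  let A : space Φ →ₗ[K] space Φ := (scale α).toLinearMap.restrict hmap
  have hty : ∀ τ : weights Φ, ∃ g : Φ.Gate, ∃ d, coeff d (Φ.val g) ≠ 0 ∧ wt d = τ.1 := fun τ => τ.2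
  choose gg dd h1 h2 using hty
  let ℓ : weights Φ → Module.Dual K (space Φ) := fun τ =>
    (lcoeff K (dd τ)).comp (space Φ).subtype
  let μ : weights Φ → K := fun τ => ((chi α τ.1 : Kˣ) : K)
  have hμ : Function.Injective μ := by
    intro τ τ' hh
    have e1 : chi α τ.1 = chi α τ'.1 := Units.ext hh
    have e2 := chi_sub α τ.1 τ'.1
    rw [e1] at e2
    have e3 := hi _ (mul_eq_right.mp e2)
    exact Subtype.ext (sub_eq_zero.mp e3)
  have heig : ∀ τ, Module.End.HasEigenvector (A.dualMap) (μ τ) (ℓ τ) := by
    intro τ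
    refine ⟨?_, ?_⟩
    · rw [Module.End.mem_eigenspace_iff]
      apply LinearMap.ext
      intro x
      simp only [LinearMap.dualMap_apply, LinearMap.smul_apply, smul_eq_mul, ℓ, μ, A,
        LinearMap.comp_apply, Submodule.subtype_apply, lcoeff_apply]
      rw [← h2 τ]
      exact coeff_scale α _ _
    · intro h0
      apply h1 τ
      have : ℓ τ ⟨Φ.val (gg τ), Submodule.subset_span ⟨_, rfl⟩⟩ = 0 := by
        rw [h0]
        rfl
      exact this
  have hli := Module.End.eigenvectors_linearIndependent' A.dualMap μ hμ ℓ heig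
  have hft : Finite (weights Φ) := (weights_finite Φ).to_subtype
  have := Fintype.ofFinite (weights Φ)
  have h5 := hli.fintype_card_le_finrank
  rw [Subspace.dual_finrank_eq, ← Nat.card_eq_fintype_card, Nat.card_coe_set_eq] at h5
  exact h5

/-- **Skew circuits whose span has one gauge symmetry.** -/
theorem span_bound (D k : ℕ) (hD : 1 ≤ D) (hk : 2 * D + 1 < 3 ^ (k + 1))
    (Φ : Circuit K (Var q)) (hs : Skew D Φ) (h : ℕ) (hh : k ≤ h) (a₀ : Fin q)
    (out : Φ.Gate)
    (hout : ∀ lam : List (Fin 3) → Fin q, lam [] = a₀ →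
      coeff (mon h lam (nodes h [])) (Φ.val out) ≠ 0)
    (α : Idx q → Kˣ) (hi : Independent α) (hS : ∀ g, scale α (Φ.val g) ∈ space Φ) :
    q ^ (h + 1 - k) ≤ Φ.products * Module.finrank K (space Φ) := by
  refine (components_bound D k hD hk Φ hs h hh a₀ out hout).trans ?_
  have hfin := Φ.fin
  have h1 := weights_le Φ α hi hS
  have h2 : (components Φ).ncard ≤
      ({g : Φ.Gate | ∃ a b, Φ.kind g = .mul a b} ×ˢ weights Φ).ncard := by
    apply Set.ncard_le_ncard
    · rintro ⟨g, e⟩ ⟨a, b, d, hk, hd, he⟩
      exact ⟨⟨a, b, hk⟩, ⟨a, d, hd, he⟩⟩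
    · exact (Set.toFinite _).prod (weights_finite Φ)
  refine h2.trans ?_
  rw [Set.ncard_prod]
  exact Nat.mul_le_mul_left _ h1

end Pool.Agent.H176R4.TR
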