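import Mathlib
import Pool.Agent.H176R4.TR.Gen

/-!
The small circuits for the tree polynomials are homogeneous for the weights.
-/

set_option autoImplicit false

namespace Pool.Agent.H176R4.TR

open MvPolynomial Finset
open Pool.Agent.H176R4.MT (Circuit Kind)

variable {K : Type} [CommRing K] {q : ℕ}

/-- all monomials of `p` have weight `e` -/
def Hom (p : MvPolynomial (Var q) K) (e : Idx q →₀ ℤ) : Prop := ∀ d, coeff d p ≠ 0 → wt d = e

lemma Hom.mul {p r : MvPolynomial (Var q) K} {e e' : Idx q →₀ ℤ} (hp : Hom p e) (hr : Hom r e') :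
    Hom (p * r) (e + e') := by
  intro d hd
  rw [coeff_mul] at hd
  obtain ⟨⟨d₁, d₂⟩, hm, hne⟩ := Finset.exists_ne_zero_of_sum_ne_zero hd
  rw [Finset.HasAntidiagonal.mem_antidiagonal] at hm
  simp only at hm hne
  rw [← hm, wt_add, hp _ (left_ne_zero_of_mul hne), hr _ (right_ne_zero_of_mul hne)]

lemma hom_X (x : Var q) : Hom (X x : MvPolynomial (Var q) K) (wt1 x) := by
  classical
  intro d hd
  rw [coeff_X] at hd
  have h1 : Finsupp.single x 1 = d := by
    by_contra hne
    rw [if_neg hne] at hd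
    exact hd rfl
  rw [← h1, wt_single]

lemma hom_sum {ι : Type} (s : Finset ι) (f : ι → MvPolynomial (Var q) K) (e : Idx q →₀ ℤ)
    (h : ∀ i ∈ s, Hom (f i) e) : Hom (∑ i ∈ s, f i) e := by
  intro d hd
  rw [coeff_sum] at hd
  obtain ⟨i, hi, hne⟩ := Finset.exists_ne_zero_of_sum_ne_zero hd
  exact h i hi d hne

lemma hom_F (k : ℕ) : ∀ (w : List (Fin 3)) (a : Fin q),
    Hom (F K q k w a) (Finsupp.single (w, a) 1) := by
  induction k with
  | zero =>
    intro w a
    rw [F]
    exact hom_X _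
  | succ k ih =>
    intro w a
    rw [F]
    apply hom_sum
    intro b _
    rw [Fin.prod_univ_three]
    have h1 := (hom_X (K := K) (w, a, some b)).mul
      (((ih (0 :: w) (b 0)).mul (ih (1 :: w) (b 1))).mul (ih (2 :: w) (b 2)))
    have h2 : wt1 ((w, a, some b) : Var q) + (Finsupp.single ((0 : Fin 3) :: w, b 0) 1 +
        Finsupp.single ((1 : Fin 3) :: w, b 1) 1 + Finsupp.single ((2 : Fin 3) :: w, b 2) 1) =
        (Finsupp.single (w, a) 1 : Idx q →₀ ℤ) := by
      simp only [wt1]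
      rw [Fin.sum_univ_three, sub_add_cancel]
    rwa [h2] at h1

theorem ucirc_hom (h : ℕ) (g : (ucirc K h q).Gate) : ∃ e, Hom ((ucirc K h q).val g) e := by
  rcases g with ⟨v, a, b⟩ | ⟨v, a⟩ | ⟨v, b⟩ | ⟨v, b⟩ | ⟨v, a, b⟩
  · exact ⟨_, hom_X _⟩
  · exact ⟨_, hom_F _ _ _⟩
  · exact ⟨_, (hom_F _ _ _).mul (hom_F _ _ _)⟩
  · exact ⟨_, ((hom_F _ _ _).mul (hom_F _ _ _)).mul (hom_F _ _ _)⟩
  · exact ⟨_, (hom_X _).mul (((hom_F _ _ _).mul (hom_F _ _ _)).mul (hom_F _ _ _))⟩

theorem ucirc_components (K : Type) [Field K] (h q : ℕ) (a₀ : Fin q) :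
    (components (ucirc K h q)).ncard ≤ 3 ^ (h + 1) * q ^ 4 := by
  refine le_trans ?_ (ucirc_products K h q a₀)
  have := (ucirc K h q).fin
  unfold Circuit.products
  apply Set.ncard_le_ncard_of_injOn (fun e => e.1)
  · rintro e ⟨a, b, d, hk, _⟩
    exact ⟨a, b, hk⟩
  · rintro ⟨g, e⟩ ⟨a, b, d, hk, hd, he⟩ ⟨g', e'⟩ ⟨a', b', d', hk', hd', he'⟩ hgg
    simp only at hgg hk hk' hd hd' he he'
    subst hgg
    rw [hk] at hk'
    injection hk' with ha hb
    subst ha
    obtain ⟨f, hf⟩ := ucirc_hom (K := K) (q := q) h a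
    rw [← he, ← he', hf d hd, hf d' hd']

/-- The weights of the monomials of a polynomial. -/
def weightsOf {K : Type} [CommRing K] {q : ℕ} (p : MvPolynomial (Var q) K) :
    Set (Idx q →₀ ℤ) :=
  {e | ∃ d, coeff d p ≠ 0 ∧ wt d = e}

lemma weightsOf_finite {K : Type} [CommRing K] (p : MvPolynomial (Var q) K) :
    (weightsOf p).Finite := by
  classical
  have h1 : weightsOf p ⊆ wt '' (p.support : Set (Var q →₀ ℕ)) := by
    rintro e ⟨d, hd, he⟩
    exact ⟨d, by rw [Finset.mem_coe, MvPolynomial.mem_support_iff]; exact hd, he⟩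
  exact Set.Finite.subset ((Finset.finite_toSet _).image _) h1

/-- some left factor has many weights -/
theorem exists_many {K : Type} [Field K] (Φ : Circuit K (Var q)) (Q : ℕ) (hQ : 1 ≤ Q)
    (h : Q ≤ (components Φ).ncard) :
    ∃ g a b, Φ.kind g = .mul a b ∧ Q ≤ Φ.products * (weightsOf (Φ.val a)).ncard := by
  classical
  have hfin := Φ.fin
  have hc := components_finite Φ
  have hp : {g : Φ.Gate | ∃ a b, Φ.kind g = .mul a b}.Finite := Set.toFinite _
  rw [Set.ncard_eq_toFinset_card _ hc] at h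
  have hA : ∀ g : Φ.Gate, ∃ a₁ : Φ.Gate, ∀ a b, Φ.kind g = .mul a b → a₁ = a := by
    intro g
    by_cases hg : ∃ a b, Φ.kind g = .mul a b
    · obtain ⟨a, b, hab⟩ := hg
      refine ⟨a, fun a' b' h' => ?_⟩
      rw [hab] at h'
      injection h'
    · exact ⟨g, fun a b hab => absurd ⟨a, b, hab⟩ hg⟩
  choose A hA using hA
  have hne : hp.toFinset.Nonempty := by
    obtain ⟨e, he⟩ := Finset.card_pos.mp (lt_of_lt_of_le hQ h)
    rw [Set.Finite.mem_toFinset] at he
    obtain ⟨a, b, d, hk, _⟩ := he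
    exact ⟨e.1, by rw [Set.Finite.mem_toFinset]; exact ⟨a, b, hk⟩⟩
  obtain ⟨g, hg, hmax⟩ := Finset.exists_max_image hp.toFinset
    (fun g => (weightsOf (Φ.val (A g))).ncard) hne
  rw [Set.Finite.mem_toFinset] at hg
  obtain ⟨a, b, hab⟩ := hg
  refine ⟨g, a, b, hab, ?_⟩
  have hga := hA g a b hab
  have hcard := Finset.card_le_mul_card_image (f := fun e : Φ.Gate × (Idx q →₀ ℤ) => e.1)
    hc.toFinset (weightsOf (Φ.val (A g))).ncard (by
      intro x hx
      obtain ⟨e, he, rfl⟩ := Finset.mem_image.mp hx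
      rw [Set.Finite.mem_toFinset] at he
      obtain ⟨a', b', d', hk', _⟩ := he
      have hmem : e.1 ∈ hp.toFinset := by
        rw [Set.Finite.mem_toFinset]
        exact ⟨a', b', hk'⟩
      refine le_trans ?_ (hmax e.1 hmem)
      rw [Set.ncard_eq_toFinset_card _ (weightsOf_finite _)]
      apply Finset.card_le_card_of_injOn (fun e => e.2)
      · intro y hy
        rw [Finset.mem_coe, Finset.mem_filter, Set.Finite.mem_toFinset] at hy
        obtain ⟨⟨a₂, b₂, d₂, hk₂, hd₂, hw₂⟩, hy2⟩ := hy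
        rw [Finset.mem_coe, Set.Finite.mem_toFinset]
        refine ⟨d₂, ?_, hw₂⟩
        rw [← hy2, hA y.1 a₂ b₂ hk₂]
        exact hd₂
      · intro y hy y' hy' hyy
        rw [Finset.mem_coe, Finset.mem_filter] at hy hy'
        exact Prod.ext (hy.2.trans hy'.2.symm) hyy)
  have himg : (hc.toFinset.image fun e => e.1).card ≤ Φ.products := by
    unfold Circuit.products
    rw [Set.ncard_eq_toFinset_card _ hp]
    apply Finset.card_le_card
    intro x hx
    obtain ⟨e, he, rfl⟩ := Finset.mem_image.mp hx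
    rw [Set.Finite.mem_toFinset] at he ⊢
    obtain ⟨a', b', d', hk', _⟩ := he
    exact ⟨a', b', hk'⟩
  rw [hga] at hcard
  calc Q ≤ hc.toFinset.card := h
    _ ≤ (weightsOf (Φ.val a)).ncard * (hc.toFinset.image fun e => e.1).card := hcard
    _ ≤ (weightsOf (Φ.val a)).ncard * Φ.products := Nat.mul_le_mul_left _ himg
    _ = Φ.products * (weightsOf (Φ.val a)).ncard := mul_comm _ _

end Pool.Agent.H176R4.TR
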