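import Mathlib
import Pool.Agent.H176R4.TR.Defs

/-!
Weakly skew circuits.
-/

set_option autoImplicit false

namespace Pool.Agent.H176R4.TR

open MvPolynomial Finset
open Pool.Agent.H176R4.MT (Circuit Kind)

/-- There is a wire from `x` to `y`: the gate `x` is an input of the gate `y`. -/
def Wire {K V : Type} [CommRing K] (Φ : Circuit K V) (x y : Φ.Gate) : Prop :=
  match Φ.kind y with
  | .var _ => False
  | .const _ => False
  | .lin l => ∃ p ∈ l, p.2 = x
  | .mul a b => x = a ∨ x = b

/-- The sub-circuit feeding `b`: the gate `b` and all gates with a directed path to it. -/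
def Below {K V : Type} [CommRing K] (Φ : Circuit K V) (b : Φ.Gate) : Set Φ.Gate :=
  {x | Relation.ReflTransGen (Wire Φ) x b}

/-- Deleting the wire from `b` to the product gate `g` (a product of `a` and `b`) separates the
sub-circuit feeding `b` from the rest of the circuit. -/
def Private {K V : Type} [CommRing K] (Φ : Circuit K V) (g a b : Φ.Gate) : Prop :=
  a ≠ b ∧ ∀ x ∈ Below Φ b, ∀ y, Wire Φ x y → y ∈ Below Φ b ∨ (x = b ∧ y = g)

/-- The circuit is weakly skew up to degree `d`: for every product gate, deleting one of its two
incoming wires separates the sub-circuit feeding this wire from the rest of the circuit, or the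
polynomial computed at one of its two inputs has degree at most `d`. -/
def WeaklySkew {K V : Type} [CommRing K] (d : ℕ) (Φ : Circuit K V) : Prop :=
  ∀ g a b, Φ.kind g = .mul a b → (Private Φ g a b ∨ Private Φ g b a) ∨
    ((Φ.val a).totalDegree ≤ d ∨ (Φ.val b).totalDegree ≤ d)

end Pool.Agent.H176R4.TR
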