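import Mathlib
import Pool.Agent.H176R4.TR.Gen
import Pool.Agent.H176R4.TR.WDefs

/-!
Weakly skew circuits with one gauge symmetry.
-/

set_option autoImplicit false

namespace Pool.Agent.H176R4.TR

open MvPolynomial Finset
open Pool.Agent.H176R4.MT (Circuit Kind)

variable {K : Type} [Field K] {q : ℕ}

lemma mon_union (h : ℕ) (lam : List (Fin 3) → Fin q) {C W : Finset (List (Fin 3))}
    (hd : Disjoint C W) : mon h lam (C ∪ W) = mon h lam C + mon h lam W := by
  unfold mon
  exact Finset.sum_union hd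

lemma mon_empty (h : ℕ) (lam : List (Fin 3) → Fin q) : mon h lam ∅ = 0 := by
  unfold mon
  exact Finset.sum_empty

/-- Sets which occur, with their contexts. -/
inductive Good (Φ : Circuit K (Var q)) (h : ℕ) (lam : List (Fin 3) → Fin q)
    (N : Φ.Gate → (Idx q →₀ ℤ)) (e₀ : Idx q →₀ ℤ) : Finset (List (Fin 3)) → Prop
  | empty : Good Φ h lam N e₀ ∅
  | step (C W : Finset (List (Fin 3))) (x : Φ.Gate) (hC : Good Φ h lam N e₀ C)
      (hN : wt (mon h lam C) + e₀ = N x) (hc : coeff (mon h lam W) (Φ.val x) ≠ 0)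
      (hW : W.Nonempty) (hd : Disjoint C W) : Good Φ h lam N e₀ (C ∪ W)

/-- the descent -/
theorem good_erase (D : ℕ) (hD : 1 ≤ D) (Φ : Circuit K (Var q)) (h : ℕ)
    (lam : List (Fin 3) → Fin q)
    (N : Φ.Gate → (Idx q →₀ ℤ)) (e₀ : Idx q →₀ ℤ)
    (hlin : ∀ y l, Φ.kind y = .lin l → ∀ p ∈ l, N p.2 = N y)
    (hmul : ∀ g a b, Φ.kind g = .mul a b → ∃ c d, ((c = a ∧ d = b) ∨ (c = b ∧ d = a)) ∧
      N c = N g ∧ ((∀ m, coeff m (Φ.val c) ≠ 0 → N d = N g + wt m) ∨
        (Φ.val d).totalDegree ≤ D)) :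
    ∀ (n : ℕ) (x : Φ.Gate), Φ.height x = n → ∀ C W : Finset (List (Fin 3)),
      Good Φ h lam N e₀ C → wt (mon h lam C) + e₀ = N x →
      coeff (mon h lam W) (Φ.val x) ≠ 0 → W.Nonempty → Disjoint C W →
      ∃ V ⊆ C ∪ W, V.Nonempty ∧ V.card ≤ D ∧ Good Φ h lam N e₀ ((C ∪ W) \ V) := by
  classical
  intro n
  induction n using Nat.strong_induction_on with
  | _ n ih =>
    intro g hg C W hC hN hc hW hdis
    have hrule := Φ.rule g
    rcases hk : Φ.kind g with v | c | l | ⟨a, b⟩
    · rw [hk] at hrule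
      simp only at hrule
      rw [hrule, coeff_X] at hc
      have h1 : Finsupp.single v 1 = mon h lam W := by
        by_contra hne
        rw [if_neg hne] at hc
        exact hc rfl
      have h2 : W.card = 1 := by
        rw [← mon_degree h lam W, ← h1]
        simp
      refine ⟨W, Finset.subset_union_right, hW, by omega, ?_⟩
      rw [sdiff_eq_left' hdis rfl]
      exact hC
    · rw [hk] at hrule
      simp only at hrule
      rw [hrule, coeff_C] at hc
      have h1 : 0 = mon h lam W := by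
        by_contra hne
        rw [if_neg hne] at hc
        exact hc rfl
      have h2 : W.card = 0 := by
        rw [← mon_degree h lam W, ← h1]
        simp
      exact absurd (Finset.card_eq_zero.mp h2) hW.ne_empty
    · have hk' := hk
      rw [hk] at hrule
      simp only at hrule
      obtain ⟨hh, hv⟩ := hrule
      rw [hv] at hc
      obtain ⟨p, hp, hpc⟩ := coeff_list_sum _ _ hc
      obtain ⟨r, hr, rfl⟩ := List.mem_map.mp hp
      rw [coeff_C_mul] at hpc
      refine ih _ (hg ▸ hh r hr) r.2 rfl C W hC ?_ (right_ne_zero_of_mul hpc) hW hdis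
      rw [hlin g l hk' r hr]
      exact hN
    · have hk' := hk
      rw [hk] at hrule
      simp only at hrule
      obtain ⟨ha, hb, hv⟩ := hrule
      obtain ⟨c, d, hcd, hNc, hNd⟩ := hmul g a b hk'
      have hv' : Φ.val g = Φ.val c * Φ.val d := by
        rcases hcd with ⟨rfl, rfl⟩ | ⟨rfl, rfl⟩
        · exact hv
        · rw [hv, mul_comm]
      have hhc : Φ.height c < n := by
        rcases hcd with ⟨rfl, rfl⟩ | ⟨rfl, rfl⟩
        · exact hg ▸ ha
        · exact hg ▸ hb
      have hhd : Φ.height d < n := by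
        rcases hcd with ⟨rfl, rfl⟩ | ⟨rfl, rfl⟩
        · exact hg ▸ hb
        · exact hg ▸ ha
      rw [hv', coeff_mul] at hc
      obtain ⟨⟨d₁, d₂⟩, hd, hne⟩ := Finset.exists_ne_zero_of_sum_ne_zero hc
      rw [Finset.HasAntidiagonal.mem_antidiagonal] at hd
      simp only at hd hne
      obtain ⟨U₁, U₂, hdisj, hun, rfl, rfl⟩ := split_mon h lam W d₁ d₂ hd
      have hc₁ : coeff (mon h lam U₁) (Φ.val c) ≠ 0 := left_ne_zero_of_mul hne
      have hc₂ : coeff (mon h lam U₂) (Φ.val d) ≠ 0 := right_ne_zero_of_mul hne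
      have hd1 : Disjoint C U₁ := hdis.mono_right (hun ▸ Finset.subset_union_left)
      have hd2 : Disjoint C U₂ := hdis.mono_right (hun ▸ Finset.subset_union_right)
      rcases U₂.eq_empty_or_nonempty with h2 | h2
      · subst h2
        rw [Finset.union_empty] at hun
        subst hun
        exact ih _ hhc c rfl C _ hC (by rw [hNc]; exact hN) hc₁ hW hdis
      · have hd3 : Disjoint (C ∪ U₁) U₂ := Finset.disjoint_union_left.mpr ⟨hd2, hdisj⟩
        have hG : Good Φ h lam N e₀ (C ∪ U₁) := by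
          rcases U₁.eq_empty_or_nonempty with h1 | h1
          · rw [h1, Finset.union_empty]
            exact hC
          · exact Good.step C U₁ c hC (by rw [hNc]; exact hN) hc₁ h1 hd1
        have hCU : (C ∪ U₁) ∪ U₂ = C ∪ W := by rw [Finset.union_assoc, hun]
        rcases hNd with hNd | hNd
        · have hN2 : wt (mon h lam (C ∪ U₁)) + e₀ = N d := by
            rw [hNd _ hc₁, ← hN, mon_union h lam hd1, wt_add]
            abel
          have := ih _ hhd d rfl (C ∪ U₁) U₂ hG hN2 hc₂ h2 hd3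
          rwa [hCU] at this
        · refine ⟨U₂, hCU ▸ Finset.subset_union_right, h2,
            mon_card_le h lam U₂ _ hc₂ hNd, ?_⟩
          rw [sdiff_eq_left' hd3 hCU]
          exact hG

end Pool.Agent.H176R4.TR
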