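import Mathlib
import Pool.Agent.H176R4.TR.WS

/-!
The lower bound for weakly skew circuits with one gauge symmetry.
-/

set_option autoImplicit false

namespace Pool.Agent.H176R4.TR

open MvPolynomial Finset
open Pool.Agent.H176R4.MT (Circuit Kind)

variable {K : Type} [Field K] {q : ℕ}

lemma wire_height {V : Type} (Φ : Circuit K V) {x y : Φ.Gate} (h : Wire Φ x y) :
    Φ.height x < Φ.height y := by
  have hrule := Φ.rule y
  unfold Wire at h
  rcases hk : Φ.kind y with v | c | l | ⟨a, b⟩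
  · rw [hk] at h
    exact h.elim
  · rw [hk] at h
    exact h.elim
  · rw [hk] at h hrule
    simp only at h hrule
    obtain ⟨p, hp, rfl⟩ := h
    exact hrule.1 p hp
  · rw [hk] at h hrule
    simp only at h hrule
    rcases h with rfl | rfl
    · exact hrule.1
    · exact hrule.2.1

lemma below_height {V : Type} (Φ : Circuit K V) {x b : Φ.Gate} (h : x ∈ Below Φ b) :
    Φ.height x ≤ Φ.height b := by
  induction h with
  | refl => exact le_rfl
  | tail _ hw ih => exact ih.trans (wire_height Φ hw).le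

lemma below_wire {V : Type} (Φ : Circuit K V) {x y b : Φ.Gate} (hxy : Wire Φ x y)
    (h : y ∈ Below Φ b) : x ∈ Below Φ b :=
  Relation.ReflTransGen.head hxy h

lemma below_refl {V : Type} (Φ : Circuit K V) (b : Φ.Gate) : b ∈ Below Φ b :=
  Relation.ReflTransGen.refl

lemma wire_lin {V : Type} (Φ : Circuit K V) {y : Φ.Gate} {l : List (K × Φ.Gate)}
    (hk : Φ.kind y = .lin l) {p : K × Φ.Gate} (hp : p ∈ l) : Wire Φ p.2 y := by
  unfold Wire
  rw [hk]
  exact ⟨p, hp, rfl⟩

lemma wire_mul {V : Type} (Φ : Circuit K V) {g a b : Φ.Gate}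
    (hk : Φ.kind g = .mul a b) {c : Φ.Gate} (hc : c = a ∨ c = b) : Wire Φ c g := by
  unfold Wire
  rw [hk]
  exact hc

lemma Good.exists_rep {Φ : Circuit K (Var q)} {h : ℕ} {lam : List (Fin 3) → Fin q}
    {N : Φ.Gate → (Idx q →₀ ℤ)} {e₀ : Idx q →₀ ℤ} {S : Finset (List (Fin 3))}
    (hG : Good Φ h lam N e₀ S) : S = ∅ ∨ ∃ C W x, S = C ∪ W ∧ Good Φ h lam N e₀ C ∧
      wt (mon h lam C) + e₀ = N x ∧ coeff (mon h lam W) (Φ.val x) ≠ 0 ∧ W.Nonempty ∧
      Disjoint C W := by
  cases hG with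
  | empty => exact Or.inl rfl
  | step C W x hC hN hc hW hd => exact Or.inr ⟨C, W, x, rfl, hC, hN, hc, hW, hd⟩

theorem weakly_bound (D k : ℕ) (hD : 1 ≤ D) (hDk : 2 * D + 1 < 3 ^ (k + 1))
    (Φ : Circuit K (Var q)) (hw : WeaklySkew D Φ) (h : ℕ) (hh : k ≤ h)
    (a₀ : Fin q) (out : Φ.Gate)
    (hout : ∀ lam : List (Fin 3) → Fin q, lam [] = a₀ →
      coeff (mon h lam (nodes h [])) (Φ.val out) ≠ 0)
    (hom : ∀ g d d', coeff d (Φ.val g) ≠ 0 → coeff d' (Φ.val g) ≠ 0 → wt d = wt d') :
    q ^ (h + 1 - k) ≤ Nat.card Φ.Gate := by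
  classical
  have hfin := Φ.fin
  have hft := Fintype.ofFinite Φ.Gate
  have hs : ∀ g : Φ.Gate, ∃ ab : Φ.Gate × Φ.Gate, ∀ a b, Φ.kind g = .mul a b →
      ((ab.1 = a ∧ ab.2 = b) ∨ (ab.1 = b ∧ ab.2 = a)) ∧
        (Private Φ g ab.1 ab.2 ∨ (Φ.val ab.2).totalDegree ≤ D) := by
    intro g
    by_cases hg : ∃ a b, Φ.kind g = .mul a b
    · obtain ⟨a, b, hab⟩ := hg
      have key : (Private Φ g a b ∨ (Φ.val b).totalDegree ≤ D) ∨
          (Private Φ g b a ∨ (Φ.val a).totalDegree ≤ D) := by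
        rcases hw g a b hab with (h1 | h1) | (h1 | h1)
        · exact Or.inl (Or.inl h1)
        · exact Or.inr (Or.inl h1)
        · exact Or.inr (Or.inr h1)
        · exact Or.inl (Or.inr h1)
      rcases key with h1 | h1
      · refine ⟨(a, b), fun a' b' h' => ?_⟩
        rw [hab] at h'
        injection h' with e1 e2
        subst e1
        subst e2
        exact ⟨Or.inl ⟨rfl, rfl⟩, h1⟩
      · refine ⟨(b, a), fun a' b' h' => ?_⟩
        rw [hab] at h'
        injection h' with e1 e2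
        subst e1
        subst e2
        exact ⟨Or.inr ⟨rfl, rfl⟩, h1⟩
    · exact ⟨(g, g), fun a b hab => absurd ⟨a, b, hab⟩ hg⟩
  choose s hs using hs
  let w : Φ.Gate → (Idx q →₀ ℤ) := fun g =>
    if hne : ∃ m, coeff m (Φ.val g) ≠ 0 then wt hne.choose else 0
  have hww : ∀ g m, coeff m (Φ.val g) ≠ 0 → w g = wt m := by
    intro g m hm
    have hne : ∃ m, coeff m (Φ.val g) ≠ 0 := ⟨m, hm⟩
    simp only [w]
    rw [dif_pos hne]
    exact hom g _ _ hne.choose_spec hm
  let PG : Finset Φ.Gate := univ.filter fun g =>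
    (∃ a b, Φ.kind g = .mul a b) ∧ Private Φ g (s g).1 (s g).2
  have hPG : ∀ g, g ∈ PG ↔ (∃ a b, Φ.kind g = .mul a b) ∧ Private Φ g (s g).1 (s g).2 :=
    fun g => by simp [PG]
  let N : Φ.Gate → (Idx q →₀ ℤ) := fun x =>
    ∑ g ∈ PG.filter (fun g => x ∈ Below Φ (s g).2), w (s g).1
  have hNN : ∀ x y, (∀ g ∈ PG, (x ∈ Below Φ (s g).2 ↔ y ∈ Below Φ (s g).2)) → N x = N y := by
    intro x y hxy
    simp only [N]
    rw [Finset.filter_congr hxy]
  have hpriv : ∀ g ∈ PG, Private Φ g (s g).1 (s g).2 := fun g hg => ((hPG g).mp hg).2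
  have hlin : ∀ y l, Φ.kind y = .lin l → ∀ p ∈ l, N p.2 = N y := by
    intro y l hk p hp
    have hwire := wire_lin Φ hk hp
    apply hNN
    intro g hg
    constructor
    · intro h1
      rcases (hpriv g hg).2 _ h1 y hwire with h2 | ⟨_, h2⟩
      · exact h2
      · obtain ⟨a, b, hab⟩ := ((hPG g).mp hg).1
        rw [← h2, hk] at hab
        exact absurd hab (by simp)
    · exact below_wire Φ hwire
  have hmul : ∀ g a b, Φ.kind g = .mul a b → ∃ c d, ((c = a ∧ d = b) ∨ (c = b ∧ d = a)) ∧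
      N c = N g ∧ ((∀ m, coeff m (Φ.val c) ≠ 0 → N d = N g + wt m) ∨
        (Φ.val d).totalDegree ≤ D) := by
    intro g a b hk
    have hsg := (hs g a b hk).1
    have hwc : Wire Φ (s g).1 g := wire_mul Φ hk (by
      rcases hsg with h1 | h1
      · exact Or.inl h1.1
      · exact Or.inr h1.1)
    have hwd : Wire Φ (s g).2 g := wire_mul Φ hk (by
      rcases hsg with h1 | h1
      · exact Or.inr h1.2
      · exact Or.inl h1.2)
    refine ⟨(s g).1, (s g).2, hsg, ?_, ?_⟩
    · apply hNN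
      intro g' hg'
      constructor
      · intro h1
        rcases (hpriv g' hg').2 _ h1 g hwc with h2 | ⟨h2, h3⟩
        · exact h2
        · subst h3
          exact absurd h2 (hpriv g hg').1
      · exact below_wire Φ hwc
    · rcases (hs g a b hk).2 with hp | hp
      swap
      · exact Or.inr hp
      left
      have hgPG : g ∈ PG := (hPG g).mpr ⟨⟨a, b, hk⟩, hp⟩
      intro m hm
      have hset : PG.filter (fun g' => (s g).2 ∈ Below Φ (s g').2) =
          insert g (PG.filter fun g' => g ∈ Below Φ (s g').2) := by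
        ext g'
        constructor
        · intro h0
          obtain ⟨h1, h2⟩ := Finset.mem_filter.mp h0
          rcases (hpriv g' h1).2 _ h2 g hwd with h3 | ⟨_, h3⟩
          · exact Finset.mem_insert_of_mem (Finset.mem_filter.mpr ⟨h1, h3⟩)
          · rw [← h3]
            exact Finset.mem_insert_self _ _
        · intro h0
          rcases Finset.mem_insert.mp h0 with rfl | h0
          · exact Finset.mem_filter.mpr ⟨hgPG, below_refl Φ _⟩
          · obtain ⟨h1, h2⟩ := Finset.mem_filter.mp h0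
            exact Finset.mem_filter.mpr ⟨h1, below_wire Φ hwd h2⟩
      have hnot : g ∉ PG.filter fun g' => g ∈ Below Φ (s g').2 := by
        intro h0
        have h2 := (Finset.mem_filter.mp h0).2
        have h3 := below_height Φ h2
        have h4 := wire_height Φ hwd
        omega
      simp only [N]
      rw [hset, Finset.sum_insert hnot, hww _ m hm, add_comm]
  -- the sets
  have hmain : ∀ l : DD h → Fin q, ∃ x : Φ.Gate, ∃ S : Finset (List (Fin 3)),
      h + 1 - k ≤ (bd h [] S).card ∧ wt (mon h (ext a₀ l) S) = N x + w x - N out := by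
    intro l
    have hstart : Good Φ h (ext a₀ l) N (N out) (nodes h []) := by
      have := Good.step (Φ := Φ) (h := h) (lam := ext a₀ l) (N := N) (e₀ := N out) ∅ (nodes h [])
        out Good.empty (by rw [mon_empty, wt, map_zero, zero_add]) (hout _ (ext_root a₀ l))
        ⟨[], root_mem h []⟩ (Finset.disjoint_empty_left _)
      rwa [Finset.empty_union] at this
    have hP : ∀ U, Good Φ h (ext a₀ l) N (N out) U → U.Nonempty →
        ∃ V ⊆ U, V.Nonempty ∧ V.card ≤ D ∧ Good Φ h (ext a₀ l) N (N out) (U \ V) := by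
      intro U hU hne
      rcases hU.exists_rep with rfl | ⟨C, W, x, rfl, hC, hN, hc, hW, hd⟩
      · exact absurd hne Finset.not_nonempty_empty
      · exact good_erase D hD Φ h (ext a₀ l) N (N out) hlin hmul _ x rfl C W hC hN hc hW hd
    obtain ⟨S, hS, h0, hPS⟩ := exists_chain D _ hP (nodes h []) hstart
    obtain ⟨i, hi⟩ := cut D k hDk h hh [] S hS h0.ge
    rcases (hPS i).exists_rep with h1 | ⟨C, W, x, hSi, hC, hN, hc, hW, hd⟩
    · rw [h1, bd_empty, Finset.card_empty] at hi
      omega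
    · refine ⟨x, S i, hi, ?_⟩
      rw [hSi, mon_union h _ hd, wt_add, hww x _ hc, ← hN]
      abel
  choose f U hbd hf using hmain
  have hcnt := count (univ : Finset Φ.Gate) h (h + 1 - k) a₀ f (fun l => Finset.mem_univ _) U hbd
    (fun l l' hl => by rw [hf, hf, hl])
  rwa [Finset.card_univ, ← Nat.card_eq_fintype_card] at hcnt

/-- **Weakly skew circuits with one gauge symmetry.** -/
theorem weakly_symm_bound (D k : ℕ) (hD : 1 ≤ D) (hDk : 2 * D + 1 < 3 ^ (k + 1))
    (Φ : Circuit K (Var q)) (hw : WeaklySkew D Φ) (h : ℕ) (hh : k ≤ h)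
    (a₀ : Fin q) (out : Φ.Gate)
    (hout : ∀ lam : List (Fin 3) → Fin q, lam [] = a₀ →
      coeff (mon h lam (nodes h [])) (Φ.val out) ≠ 0)
    (α : Idx q → Kˣ) (hi : Independent α) (hS : Symm Φ α) :
    q ^ (h + 1 - k) ≤ Nat.card Φ.Gate :=
  weakly_bound D k hD hDk Φ hw h hh a₀ out hout
    (fun g _ _ h1 h2 => wt_unique Φ α hi hS g h1 h2)

/-- The number of gates of the small circuits. -/
theorem ucirc_gates (K : Type) [CommRing K] (h q : ℕ) (a₀ : Fin q) :
    Nat.card (ucirc K h q).Gate ≤ 2 * 3 ^ (h + 1) * q ^ 4 := by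
  classical
  have hq : 0 < q := a₀.pos
  have h0 : Nat.card (ucirc K h q).Gate = Nat.card (UG h q) := rfl
  have hNN : 2 * Nat.card (NN h) + 1 ≤ 3 ^ (h + 1) := by
    refine le_trans ?_ (card_nodes h [])
    have h1 : Nat.card (NN h) ≤ Nat.card (nodes h []) := by
      apply Nat.card_le_card_of_injective
        (fun v : NN h => (⟨v.1, (mem_nodes h [] v.1).mpr
          ⟨List.nil_suffix, by have := v.2; rw [List.length_nil]; omega⟩⟩ : nodes h []))
      intro v v' hv
      exact Subtype.ext (congrArg (fun x : nodes h [] => x.1) hv)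
    rw [Nat.card_eq_fintype_card (α := nodes h []), Fintype.card_coe] at h1
    omega
  have hII := card_II h
  have hopt : Nat.card (Option (Fin 3 → Fin q)) = q ^ 3 + 1 := by
    rw [Nat.card_eq_fintype_card, Fintype.card_option, Fintype.card_fun, Fintype.card_fin,
      Fintype.card_fin]
  have hf3 : Nat.card (Fin 3 → Fin q) = q ^ 3 := by
    rw [Nat.card_eq_fintype_card, Fintype.card_fun, Fintype.card_fin, Fintype.card_fin]
  have hfq : Nat.card (Fin q) = q := by
    rw [Nat.card_eq_fintype_card, Fintype.card_fin]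
  rw [h0, Nat.card_sum, Nat.card_sum, Nat.card_sum, Nat.card_sum, Nat.card_prod, Nat.card_prod,
    Nat.card_prod, Nat.card_prod, Nat.card_prod, Nat.card_prod, hopt, hf3, hfq]
  have h3 : q ^ 3 ≤ q ^ 4 := Nat.pow_le_pow_right hq (by norm_num)
  have h4 : q ≤ q ^ 4 := by
    calc q = q ^ 1 := (pow_one q).symm
      _ ≤ q ^ 4 := Nat.pow_le_pow_right hq (by norm_num)
  have h5 : q * q ^ 3 = q ^ 4 := by ring
  have h6 : q * (q ^ 3 + 1) = q ^ 4 + q := by ring
  rw [h5, h6]
  calc Nat.card (NN h) * (q ^ 4 + q) + (Nat.card (NN h) * q +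
        (Nat.card (II h) * q ^ 3 + (Nat.card (II h) * q ^ 3 + Nat.card (II h) * q ^ 4)))
      ≤ Nat.card (NN h) * (q ^ 4 + q ^ 4) + (Nat.card (NN h) * q ^ 4 +
        (Nat.card (II h) * q ^ 4 + (Nat.card (II h) * q ^ 4 + Nat.card (II h) * q ^ 4))) := by
        gcongr
    _ = (3 * Nat.card (NN h) + 3 * Nat.card (II h)) * q ^ 4 := by ring
    _ ≤ 2 * 3 ^ (h + 1) * q ^ 4 := by
        apply Nat.mul_le_mul_right
        have : 3 ^ (h + 1) = 3 * 3 ^ h := by ring
        omega

end Pool.Agent.H176R4.TR
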